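import Pool.Agent.Helper72.MVAA.LTwo

/-!
Project MV, block AA, module AA-6 (second counting lemma for `rot K`).

`sum_rot`: order `HK K = Σ i, Fin (K i)` so that `(i, a) < (i, a + 1)`: choose an injection
`e : ρ → ℕ` (from `Fintype.equivFin ρ`) and the linear order
`LinearOrder.lift' (fun h => (toLex (e h.1, (h.2 : ℕ)) : ℕ ×ₗ ℕ)) _` (or
`h ↦ e h.1 * (2 * E + 1) + h.2`, using `K i ≤ 2 E`). `I = {(i, 0)}` has `card ρ` elements
(`0 < K i`). For `h = (i, a)`, `a ≠ 0`: `(rot K).symm h = (i, a - 1)` (check `rot K (i, a-1) = (i, a)`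
with `finRotate`, e.g. `finRotate_of_lt` or `coe_finRotate_of_ne_last`). Apply `sum_two`.
(The statement of `PR`, `nf` uses only the `Fintype` structure, so the order can be introduced by
`letI`.)
-/

namespace Pool.Agent.Helper72.MVAA

open Finset Pool.Agent.Helper60.MV

private theorem l3_symm_lt (n : ℕ) (a : Fin n) (ha : (a : ℕ) ≠ 0) :
    ((finRotate n).symm a : ℕ) < (a : ℕ) := by
  cases n with
  | zero => exact a.elim0
  | succ n =>
    have hb : finRotate (n + 1) ((finRotate (n + 1)).symm a) = a := Equiv.apply_symm_apply _ _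
    by_cases hl : (finRotate (n + 1)).symm a = Fin.last n
    · rw [hl, finRotate_last] at hb
      exact absurd (by rw [← hb]; rfl) ha
    · have h1 := coe_finRotate_of_ne_last hl
      rw [hb] at h1
      omega

theorem sum_rot {ρ : Type} [Fintype ρ] (K : ρ → ℕ) (hK : ∀ i, 0 < K i) (E : ℕ)
    (hE : ∑ i, K i = 2 * E) (z : ℕ) :
    ∑ τ ∈ PR (HK K), z ^ nf (rot K * τ) ≤
      2 ^ (2 * E) * z ^ (Fintype.card ρ) * z.ascFactorial E := by
  classical
  let e : ρ ≃ Fin (Fintype.card ρ) := Fintype.equivFin ρ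
  let F : HK K → ℕ := fun h => (h.2 : ℕ) + (2 * E + 1) * (e h.1 : ℕ)
  have hKle : ∀ i, K i ≤ 2 * E := fun i => by
    rw [← hE]
    exact Finset.single_le_sum (f := K) (fun _ _ => Nat.zero_le _) (mem_univ i)
  have hF : Function.Injective F := by
    rintro ⟨i, a⟩ ⟨j, b⟩ h
    have ha : (a : ℕ) < 2 * E + 1 := lt_of_lt_of_le a.2 ((hKle i).trans (Nat.le_succ _))
    have hb : (b : ℕ) < 2 * E + 1 := lt_of_lt_of_le b.2 ((hKle j).trans (Nat.le_succ _))
    have h0 : (a : ℕ) + (2 * E + 1) * (e i : ℕ) = (b : ℕ) + (2 * E + 1) * (e j : ℕ) := h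
    have h1 : (e i : ℕ) = (e j : ℕ) := by
      have h2 := congrArg (fun n => n / (2 * E + 1)) h0
      simpa [Nat.add_mul_div_left, Nat.div_eq_of_lt ha, Nat.div_eq_of_lt hb] using h2
    have h2 : (a : ℕ) = (b : ℕ) := by
      rw [h1] at h0
      exact Nat.add_right_cancel h0
    have h3 : i = j := e.injective (Fin.ext h1)
    subst h3
    rw [Fin.ext h2]
  letI : LinearOrder (HK K) := LinearOrder.lift' F hF
  let I : Finset (HK K) := univ.image (fun i => (⟨i, ⟨0, hK i⟩⟩ : HK K))
  have hIcard : I.card = Fintype.card ρ := by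
    rw [Finset.card_image_of_injective, Finset.card_univ]
    intro i j h
    exact congrArg Sigma.fst h
  have hI : ∀ h, h ∉ I → F ((rot K).symm h) < F h := by
    rintro ⟨i, a⟩ h
    have ha : (a : ℕ) ≠ 0 := by
      intro h0
      apply h
      refine Finset.mem_image.2 ⟨i, mem_univ _, ?_⟩
      have h1 : a = ⟨0, hK i⟩ := Fin.ext h0
      rw [h1]
    show ((finRotate (K i)).symm a : ℕ) + (2 * E + 1) * (e i : ℕ)
      < (a : ℕ) + (2 * E + 1) * (e i : ℕ)
    exact Nat.add_lt_add_right (l3_symm_lt _ a ha) _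
  have hcard : Fintype.card (HK K) = 2 * E := by
    rw [← hE]
    simp [Fintype.card_sigma]
  have h := sum_two (rot K) I hI E hcard z
  rwa [hIcard] at h

end Pool.Agent.Helper72.MVAA
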