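import Mathlib

/-!
Project MV, block AA, module AA-8 (numerics).

* `pow_small`: `70000 ^ (E / 50) ≤ (5/4)^E`: `(5/4)^50 ≥ 70000` (`norm_num`), so
  `70000^(E/50) ≤ (5/4)^(50 * (E/50)) ≤ (5/4)^E`.
* `num_small`: `(5/4) (10/9) (10/9) = 1.5432.. < 1.6`; so the left side is at most
  `16 E^3 1.6^E (E-1)! ≤ 16 E^3 1.6^E E!` and `16 E^3 (16/19)^E` is bounded
  (`tendsto_pow_const_mul_const_pow_of_abs_lt_one`, a convergent sequence is bounded).
* `num_large`: `(2 E)^E = 2^E E^E ≤ 2^E exp(E) E!` (`Real.pow_div_factorial_le_exp`); so the left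
  side is at most `E! A^E E^2 E^(-E/100)` with a constant `A` and `A^E E^2 E^(-E/100) =
  exp (E log A + 2 log E - E log E / 100)` is bounded for `E ≥ 1` (tends to 0, or: `2 log E ≤ 2 E`
  and for `log E ≥ 100 (log A + 2)` the exponent is `≤ 0`; for smaller `E` finitely many values).
-/

namespace Pool.Agent.Helper72.MVAA

theorem pow_small (E : ℕ) : (70000 : ℝ) ^ (E / 50) ≤ (5 / 4 : ℝ) ^ E := by
  have h1 : (70000 : ℝ) ≤ (5 / 4 : ℝ) ^ 50 := by norm_num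
  calc (70000 : ℝ) ^ (E / 50) ≤ ((5 / 4 : ℝ) ^ 50) ^ (E / 50) :=
        pow_le_pow_left₀ (by norm_num) h1 _
    _ = (5 / 4 : ℝ) ^ (50 * (E / 50)) := by rw [pow_mul]
    _ ≤ (5 / 4 : ℝ) ^ E := pow_le_pow_right₀ (by norm_num) (Nat.mul_div_le E 50)

theorem num_small : ∃ C : ℝ, 0 < C ∧ ∀ E : ℕ, 1 ≤ E →
    (10 / 9 : ℝ) ^ E * ((2 * E : ℝ) ^ 2 * (((E / 50 : ℕ) : ℝ) + 1) * ((70000 : ℝ) ^ (E / 50)
      * (((E - 1).factorial : ℝ) * (10 / 9 : ℝ) ^ E))) ≤ C * (19 / 10) ^ E * (E.factorial : ℝ) := by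
  have ht := tendsto_pow_const_mul_const_pow_of_abs_lt_one 3 (r := (16 / 19 : ℝ))
    (by rw [abs_of_pos (by norm_num)]; norm_num)
  obtain ⟨B, hB⟩ := ht.bddAbove_range
  have hB' : ∀ n : ℕ, (n : ℝ) ^ 3 * (16 / 19) ^ n ≤ B := fun n => hB ⟨n, rfl⟩
  have hBpos : 0 < B := lt_of_lt_of_le (by norm_num) (hB' 1)
  refine ⟨4 * B, by positivity, fun E hE => ?_⟩
  have h1 : (((E / 50 : ℕ) : ℝ) + 1) ≤ E := by
    have : E / 50 + 1 ≤ E := by omega
    exact_mod_cast this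
  have h2 := pow_small E
  have h3 : ((E - 1).factorial : ℝ) ≤ (E.factorial : ℝ) := by
    exact_mod_cast Nat.factorial_le (Nat.sub_le E 1)
  have hEf : (0 : ℝ) < (E.factorial : ℝ) := by exact_mod_cast Nat.factorial_pos E
  have hE1f : (0 : ℝ) < ((E - 1).factorial : ℝ) := by exact_mod_cast Nat.factorial_pos (E - 1)
  have hE0 : (0 : ℝ) ≤ (E : ℝ) := Nat.cast_nonneg E
  calc (10 / 9 : ℝ) ^ E * ((2 * E : ℝ) ^ 2 * (((E / 50 : ℕ) : ℝ) + 1) * ((70000 : ℝ) ^ (E / 50)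
      * (((E - 1).factorial : ℝ) * (10 / 9 : ℝ) ^ E)))
      ≤ (10 / 9 : ℝ) ^ E * ((2 * E : ℝ) ^ 2 * E * ((5 / 4 : ℝ) ^ E
      * ((E.factorial : ℝ) * (10 / 9 : ℝ) ^ E))) := by gcongr
    _ = 4 * (E : ℝ) ^ 3 * (((10 / 9 : ℝ) * (5 / 4) * (10 / 9)) ^ E) * (E.factorial : ℝ) := by
        have h5 : ((10 / 9 : ℝ) * (5 / 4) * (10 / 9)) ^ E =
            (10 / 9 : ℝ) ^ E * (5 / 4) ^ E * (10 / 9) ^ E := by rw [mul_pow, mul_pow]
        rw [h5]; ring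
    _ ≤ 4 * (E : ℝ) ^ 3 * ((16 / 10 : ℝ) ^ E) * (E.factorial : ℝ) := by
        gcongr
        norm_num
    _ = 4 * ((E : ℝ) ^ 3 * (16 / 19) ^ E) * (19 / 10) ^ E * (E.factorial : ℝ) := by
        have : (16 / 10 : ℝ) ^ E = (16 / 19) ^ E * (19 / 10) ^ E := by
          rw [← mul_pow]; norm_num
        rw [this]; ring
    _ ≤ 4 * B * (19 / 10) ^ E * (E.factorial : ℝ) := by
        have := hB' E
        gcongr

theorem num_large : ∃ C : ℝ, 0 < C ∧ ∀ E : ℕ, 1 ≤ E →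
    (10 / 9 : ℝ) ^ E * ((98 : ℝ) ^ E * (E : ℝ) ^ (-(E : ℝ) / 100) *
      ((2 : ℝ) ^ (2 * E) * (E : ℝ) ^ 2 * (2 * E : ℝ) ^ E)) ≤
      C * (19 / 10) ^ E * (E.factorial : ℝ) := by
  set A : ℝ := 10 / 9 * 98 * 4 * 2 * Real.exp 1 with hA
  have hA1 : 1 ≤ A := by
    have : (1 : ℝ) ≤ Real.exp 1 := Real.one_le_exp (by norm_num)
    rw [hA]; nlinarith
  have hA0 : 0 < A := by linarith
  have hlA : 0 ≤ Real.log A := Real.log_nonneg hA1
  set K : ℝ := Real.log A + 2 with hK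
  have hK0 : 0 < K := by linarith
  refine ⟨Real.exp (Real.exp (100 * K) * K), Real.exp_pos _, fun E hE => ?_⟩
  have hE1 : (1 : ℝ) ≤ (E : ℝ) := by exact_mod_cast hE
  have hE0 : (0 : ℝ) < (E : ℝ) := by linarith
  have hEf : (0 : ℝ) < (E.factorial : ℝ) := by exact_mod_cast Nat.factorial_pos E
  have hlE : 0 ≤ Real.log E := Real.log_nonneg hE1
  have hlE' : Real.log E ≤ E := by
    have := Real.log_le_sub_one_of_pos hE0
    linarith
  have hpow : (E : ℝ) ^ E ≤ Real.exp E * (E.factorial : ℝ) := by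
    have := Real.pow_div_factorial_le_exp (E : ℝ) hE0.le E
    rwa [div_le_iff₀ hEf] at this
  have hr : 0 < (E : ℝ) ^ (-(E : ℝ) / 100) := Real.rpow_pos_of_pos hE0 _
  have hexpE : Real.exp E = (Real.exp 1) ^ E := by
    rw [← Real.exp_nat_mul, mul_one]
  have hmain : A ^ E * (E : ℝ) ^ 2 * (E : ℝ) ^ (-(E : ℝ) / 100) ≤
      Real.exp (Real.exp (100 * K) * K) := by
    have e1 : A ^ E = Real.exp (E * Real.log A) := by
      rw [Real.exp_nat_mul, Real.exp_log hA0]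
    have e2 : (E : ℝ) ^ 2 = Real.exp (2 * Real.log E) := by
      have := Real.exp_nat_mul (Real.log E) 2
      rw [Real.exp_log hE0] at this
      rw [← this]; norm_num
    have e3 : (E : ℝ) ^ (-(E : ℝ) / 100) = Real.exp (Real.log E * (-(E : ℝ) / 100)) :=
      Real.rpow_def_of_pos hE0 _
    rw [e1, e2, e3, ← Real.exp_add, ← Real.exp_add, Real.exp_le_exp]
    by_cases hc : 100 * K ≤ Real.log E
    · have h1 : (E : ℝ) * Real.log A + 2 * Real.log E + Real.log E * (-(E : ℝ) / 100) ≤ 0 := by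
        have : (E : ℝ) * (100 * K) ≤ E * Real.log E := by gcongr
        have h2 : (E : ℝ) * Real.log A + 2 * E = E * K := by rw [hK]; ring
        nlinarith
      have h2 : 0 ≤ Real.exp (100 * K) * K := by positivity
      linarith
    · push Not at hc
      have hE2 : (E : ℝ) ≤ Real.exp (100 * K) := by
        rw [← Real.exp_log hE0]
        exact Real.exp_le_exp.mpr hc.le
      have h1 : Real.log E * (-(E : ℝ) / 100) ≤ 0 := by
        have : 0 ≤ Real.log E * ((E : ℝ) / 100) := by positivity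
        nlinarith
      have h2 : (E : ℝ) * Real.log A + 2 * Real.log E ≤ E * K := by
        rw [hK]; nlinarith
      have h3 : (E : ℝ) * K ≤ Real.exp (100 * K) * K := by gcongr
      linarith
  have h19 : (1 : ℝ) ≤ (19 / 10 : ℝ) ^ E := one_le_pow₀ (by norm_num)
  calc (10 / 9 : ℝ) ^ E * ((98 : ℝ) ^ E * (E : ℝ) ^ (-(E : ℝ) / 100) *
      ((2 : ℝ) ^ (2 * E) * (E : ℝ) ^ 2 * (2 * E : ℝ) ^ E))
      = (10 / 9 : ℝ) ^ E * ((98 : ℝ) ^ E * (E : ℝ) ^ (-(E : ℝ) / 100) *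
      ((2 : ℝ) ^ (2 * E) * (E : ℝ) ^ 2 * (2 ^ E * (E : ℝ) ^ E))) := by rw [mul_pow]
    _ ≤ (10 / 9 : ℝ) ^ E * ((98 : ℝ) ^ E * (E : ℝ) ^ (-(E : ℝ) / 100) *
      ((2 : ℝ) ^ (2 * E) * (E : ℝ) ^ 2 * (2 ^ E * (Real.exp E * (E.factorial : ℝ))))) := by
        gcongr
    _ = (A ^ E * (E : ℝ) ^ 2 * (E : ℝ) ^ (-(E : ℝ) / 100)) * (E.factorial : ℝ) := by
        rw [hA, hexpE, mul_pow, mul_pow, mul_pow, mul_pow, pow_mul]
        norm_num
        ring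
    _ ≤ Real.exp (Real.exp (100 * K) * K) * (E.factorial : ℝ) := by gcongr
    _ = Real.exp (Real.exp (100 * K) * K) * 1 * (E.factorial : ℝ) := by ring
    _ ≤ Real.exp (Real.exp (100 * K) * K) * (19 / 10) ^ E * (E.factorial : ℝ) := by gcongr

end Pool.Agent.Helper72.MVAA
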