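import Pool.Agent.Helper72.MVAA.Defs

/-!
Project MV, block AA, module AA-7 (structure of AA configurations).

* `allOdd_rot`: `minimalPeriod (rot K) (i, a) = K i` (`(rot K)^n (i, a) = (i, a + n mod K i)`; it is
  enough: the minimal period divides `K i` (a divisor of an odd number is odd), because
  `(rot K)^[K i] = id` on the fibre `i`: `finRotate` has order dividing `K i`).
* `sameCycle_rot`: `(rot K).SameCycle h h' ↔ h.1 = h'.1`.
* `isSgn_of_isAA`: `face (τ h) = face (σ h)` because `(σ * τ) (τ h) = σ h`; so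
  `μ (σ h) = μ (τ h)`; this is `- μ h` for `h ≠ x, τ x`, it is `μ (τ x) = 1` for `h = x` and
  `μ (τ (τ x)) = μ x = 1` for `h = τ x`. And `τ ∈ TT (MM μ) x (τ x)`: for `h ∈ MM μ`, `h ≠ x, τ x`
  (their `μ` is 1), so `μ (τ h) = 1`; for `h ∉ MM μ`, `μ h = 1`, so `μ (τ h) = -1` if `h ≠ x, τ x`.
* `IsSgn.cyc`: if the cycle of `h` contains neither `x` nor `y` then `μ (σ^[n] h) = (-1)^n μ h` for
  all `n`; with `n` the (odd) minimal period this gives `μ h = - μ h`, impossible.
* `IsSgn.uniq`: let `h = σ^[n] x` or `h = σ^[n] y` (every `h` is of this form by `cyc`, finite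
  cycles). Induction on `n`: `μ` and `μ'` agree at `x`, `y`, `σ x`, `σ y`, and
  `μ (σ k) = - μ k`, `μ' (σ k) = - μ' k` for `k ≠ x, y`.
* `IsSgn.card`: `∑ h, μ (σ h) = ∑ h, μ h` and `μ (σ h) = - μ h + 2 [h = x] + 2 [h = y]` (`x ≠ y` by
  `diff`), so `∑ μ = 2`; as `μ = ± 1`: `(2 E - card MM) - card MM = 2`.
* `IsSgn.det`: let `h` be any element, `g = σ⁻¹ h`. If `μ h = -1` clear. If `μ h = 1`: if
  `g ≠ x, y` then `μ g = -1`, so `lab h = lab (σ g)` is known. If `g = x`: `lab h = lab (σ x) =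
  lab y`, if `g = y`: `lab h = lab x`. So it remains to see that `lab x = lab' x` and
  `lab y = lab' y`. `g = σ⁻¹ x`: `g = y` is impossible (`diff`); if `g ≠ x` then `μ g = -1`
  (as `μ (σ g) = μ x = 1`), known. If `σ x = x` then `lab x = lab (σ x) = lab y`. Similarly for `y`.
  Both `σ x = x` and `σ y = y` is impossible: by `cyc` every element would be `x` or `y`, so
  `card H ≤ 2`.
-/

namespace Pool.Agent.Helper72.MVAA

open Finset Pool.Agent.Helper60.MV

private theorem finRotate_iter (m : ℕ) (j : Fin (m + 1)) (n : ℕ) :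
    (((finRotate (m + 1))^[n] j : Fin (m + 1)) : ℕ) = ((j : ℕ) + n) % (m + 1) := by
  induction n with
  | zero =>
    rw [Function.iterate_zero, id_eq, add_zero, Nat.mod_eq_of_lt j.isLt]
  | succ n ih =>
    rw [Function.iterate_succ_apply', finRotate_apply, Fin.val_add, ih, Fin.val_one',
      ← Nat.add_mod, add_assoc]

private theorem finRotate_minimalPeriod (k : ℕ) (j : Fin k) :
    Function.minimalPeriod (finRotate k) j = k := by
  cases k with
  | zero => exact j.elim0
  | succ m =>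
    have key : ∀ n : ℕ, Function.IsPeriodicPt (finRotate (m + 1)) n j ↔ (m + 1) ∣ n := by
      intro n
      rw [Function.IsPeriodicPt, Function.IsFixedPt, Fin.ext_iff, finRotate_iter]
      have hj := Nat.mod_eq_of_lt j.isLt
      constructor
      · intro h
        have h1 : (j : ℕ) + n ≡ (j : ℕ) + 0 [MOD (m + 1)] := by
          rw [Nat.ModEq, add_zero, h, hj]
        exact (Nat.modEq_zero_iff_dvd).1 (Nat.ModEq.add_left_cancel' _ h1)
      · rintro ⟨q, rfl⟩
        rw [Nat.add_mul_mod_self_left, hj]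
    apply Nat.dvd_antisymm
    · exact ((key (m + 1)).2 dvd_rfl).minimalPeriod_dvd
    · exact (key _).1 (Function.isPeriodicPt_minimalPeriod _ _)

private theorem finRotate_trans (k : ℕ) (a b : Fin k) : ∃ n : ℕ, (finRotate k)^[n] a = b := by
  cases k with
  | zero => exact a.elim0
  | succ m =>
    refine ⟨(m + 1 - (a : ℕ)) + (b : ℕ), ?_⟩
    apply Fin.ext
    rw [finRotate_iter]
    have ha := a.isLt
    have hb := b.isLt
    have h1 : (a : ℕ) + ((m + 1 - (a : ℕ)) + (b : ℕ)) = (b : ℕ) + (m + 1) := by omega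
    rw [h1, Nat.add_mod_right, Nat.mod_eq_of_lt hb]

private theorem rot_iter {ρ : Type} (K : ρ → ℕ) (i : ρ) (j : Fin (K i)) (n : ℕ) :
    (rot K)^[n] ⟨i, j⟩ = ⟨i, (finRotate (K i))^[n] j⟩ := by
  induction n with
  | zero => rfl
  | succ n ih =>
    rw [Function.iterate_succ_apply', ih, Function.iterate_succ_apply']
    rfl

private theorem rot_minimalPeriod {ρ : Type} (K : ρ → ℕ) (h : HK K) :
    Function.minimalPeriod (rot K) h = K h.1 := by
  obtain ⟨i, j⟩ := h
  rw [← finRotate_minimalPeriod (K i) j, Function.minimalPeriod_eq_minimalPeriod_iff]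
  intro n
  unfold Function.IsPeriodicPt Function.IsFixedPt
  rw [rot_iter]
  constructor
  · intro h
    have := (Sigma.mk.inj_iff.1 h).2
    exact eq_of_heq this
  · intro h
    rw [h]

theorem allOdd_rot {ρ : Type} (K : ρ → ℕ) (hK : ∀ i, Odd (K i)) : AllOdd (rot K) := by
  intro h
  rw [rot_minimalPeriod]
  exact hK _

private theorem rot_fst {ρ : Type} (K : ρ → ℕ) (h : HK K) : (rot K h).1 = h.1 := rfl

private theorem rot_pow_fst {ρ : Type} (K : ρ → ℕ) (n : ℕ) (h : HK K) :
    ((rot K ^ n) h).1 = h.1 := by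
  induction n with
  | zero => rfl
  | succ n ih =>
    rw [pow_succ', Equiv.Perm.mul_apply, rot_fst, ih]

theorem sameCycle_rot {ρ : Type} (K : ρ → ℕ) (h h' : HK K) :
    (rot K).SameCycle h h' ↔ h.1 = h'.1 := by
  constructor
  · rintro ⟨n, hn⟩
    rcases Int.eq_nat_or_neg n with ⟨m, rfl | rfl⟩
    · rw [zpow_natCast] at hn
      rw [← hn, rot_pow_fst]
    · rw [zpow_neg, zpow_natCast, Equiv.Perm.inv_eq_iff_eq] at hn
      rw [hn, rot_pow_fst]
  · intro e
    obtain ⟨i, a⟩ := h
    obtain ⟨i', b⟩ := h'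
    simp only at e
    subst e
    obtain ⟨n, hn⟩ := finRotate_trans (K i) a b
    refine ⟨(n : ℤ), ?_⟩
    rw [zpow_natCast, ← Equiv.Perm.iterate_eq_pow, rot_iter, hn]

private theorem aa_sig {H : Type} {σ : Equiv.Perm H} (R : Conf σ) (x : H) (μ : H → ℤ)
    (h : R.IsAA x μ) (k : H) : μ (σ k) = μ (R.τ k) := by
  apply h.face
  apply Quotient.sound
  refine Equiv.Perm.SameCycle.symm ⟨1, ?_⟩
  rw [zpow_one, Equiv.Perm.mul_apply, R.hτ.invol]

theorem isSgn_of_isAA {H : Type} {σ : Equiv.Perm H} (R : Conf σ) (x : H) (μ : H → ℤ)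
    (h : R.IsAA x μ) : IsSgn σ x (R.τ x) μ where
  vals := h.vals
  one := h.one
  one' := h.one'
  sx := by rw [aa_sig R x μ h, h.one']
  sy := by rw [aa_sig R x μ h, R.hτ.invol, h.one]
  alt := fun k h1 h2 => by rw [aa_sig R x μ h, h.tau k h1 h2]
  diff := h.diff

theorem mem_TT_of_isAA {H : Type} [Fintype H] {σ : Equiv.Perm H} (R : Conf σ) (x : H)
    (μ : H → ℤ) (h : R.IsAA x μ) : R.τ ∈ TT (MM μ) x (R.τ x) := by
  rw [mem_TT]
  have h1 := h.one
  have h2 := h.one'
  refine ⟨R.hτ, rfl, ?_, ?_⟩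
  · intro k hk hk'
    rw [mem_MM] at hk hk'
    have hx : k ≠ x := by
      rintro rfl
      omega
    have hy : k ≠ R.τ x := by
      rintro rfl
      omega
    have h3 := h.tau k hx hy
    omega
  · intro k hk hx hy
    rw [mem_MM] at hk ⊢
    have h3 := h.tau k hx hy
    rcases h.vals k with h4 | h4
    · omega
    · exact absurd h4 hk

theorem IsSgn.cyc {H : Type} [Finite H] {σ : Equiv.Perm H} (hσ : AllOdd σ) {x y : H} {μ : H → ℤ}
    (hμ : IsSgn σ x y μ) (h : H) : σ.SameCycle x h ∨ σ.SameCycle y h := by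
  by_contra hcon
  rw [not_or] at hcon
  obtain ⟨hx, hy⟩ := hcon
  have key : ∀ n : ℕ, μ (σ^[n] h) = (-1) ^ n * μ h := by
    intro n
    induction n with
    | zero => simp
    | succ n ih =>
      rw [Function.iterate_succ_apply', hμ.alt, ih, pow_succ]
      · ring
      · intro e
        apply hx
        refine Equiv.Perm.SameCycle.symm ⟨(n : ℤ), ?_⟩
        rw [zpow_natCast, ← Equiv.Perm.iterate_eq_pow, e]
      · intro e
        apply hy
        refine Equiv.Perm.SameCycle.symm ⟨(n : ℤ), ?_⟩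
        rw [zpow_natCast, ← Equiv.Perm.iterate_eq_pow, e]
  have h1 := key (Function.minimalPeriod σ h)
  rw [Function.iterate_minimalPeriod, (hσ h).neg_one_pow] at h1
  rcases hμ.vals h with h2 | h2 <;> omega

theorem IsSgn.uniq {H : Type} [Finite H] {σ : Equiv.Perm H} (hσ : AllOdd σ) {x y : H}
    {μ μ' : H → ℤ} (hμ : IsSgn σ x y μ) (hμ' : IsSgn σ x y μ') : μ = μ' := by
  have hstep : ∀ k, μ k = μ' k → μ (σ k) = μ' (σ k) := by
    intro k hk
    by_cases h1 : k = x
    · rw [h1, hμ.sx, hμ'.sx]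
    · by_cases h2 : k = y
      · rw [h2, hμ.sy, hμ'.sy]
      · rw [hμ.alt k h1 h2, hμ'.alt k h1 h2, hk]
  have hit : ∀ (z : H), μ z = μ' z → ∀ n : ℕ, μ ((σ ^ n) z) = μ' ((σ ^ n) z) := by
    intro z hz n
    induction n with
    | zero => simpa using hz
    | succ n ih =>
      rw [pow_succ', Equiv.Perm.mul_apply]
      exact hstep _ ih
  funext h
  rcases hμ.cyc hσ h with hc | hc
  · obtain ⟨n, hn⟩ := hc.exists_nat_pow_eq
    rw [← hn]
    exact hit x (by rw [hμ.one, hμ'.one]) n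
  · obtain ⟨n, hn⟩ := hc.exists_nat_pow_eq
    rw [← hn]
    exact hit y (by rw [hμ.one', hμ'.one']) n

theorem IsSgn.ne {H : Type} {σ : Equiv.Perm H} {x y : H} {μ : H → ℤ}
    (hμ : IsSgn σ x y μ) : x ≠ y := by
  intro h
  exact hμ.diff (h ▸ Equiv.Perm.SameCycle.refl σ x)

theorem IsSgn.card {H : Type} [Fintype H] {σ : Equiv.Perm H} {x y : H}
    {μ : H → ℤ} (hμ : IsSgn σ x y μ) (E : ℕ) (hE : Fintype.card H = 2 * E) :
    (MM μ).card + 1 = E := by
  classical
  have hne := hμ.ne
  have h1 : ∑ h, μ (σ h) = ∑ h, μ h := Equiv.sum_comp σ μ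
  have h2 : ∀ h, μ (σ h) = - μ h + ((if h = x then 2 else 0) + (if h = y then 2 else 0)) := by
    intro h
    by_cases hx : h = x
    · subst hx
      rw [if_pos rfl, if_neg hne, hμ.sx, hμ.one]; norm_num
    · by_cases hy : h = y
      · subst hy
        rw [if_neg hx, if_pos rfl, hμ.sy, hμ.one']; norm_num
      · rw [if_neg hx, if_neg hy, hμ.alt h hx hy]; simp
  have h3 : ∑ h, μ (σ h) = - ∑ h, μ h + 4 := by
    rw [Finset.sum_congr rfl (fun h _ => h2 h), Finset.sum_add_distrib, Finset.sum_add_distrib,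
      Finset.sum_neg_distrib]
    simp
  have h4 : ∑ h, μ h = (Fintype.card H : ℤ) - 2 * ((MM μ).card : ℤ) := by
    have h5 : ∀ h, μ h = 1 - 2 * (if μ h = -1 then 1 else 0) := by
      intro h
      rcases hμ.vals h with h6 | h6
      · rw [h6]; norm_num
      · rw [h6]; norm_num
    have h7 : MM μ = univ.filter (fun h => μ h = -1) := by
      ext h
      rw [mem_MM]; simp
    rw [Finset.sum_congr rfl (fun h _ => h5 h), Finset.sum_sub_distrib, ← Finset.mul_sum,
      Finset.sum_boole, h7]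
    simp
  rw [h3] at h1
  rw [hE] at h4
  push_cast at h4
  omega

theorem IsSgn.det {H : Type} [Fintype H] {σ : Equiv.Perm H} (hσ : AllOdd σ) {x y : H}
    {μ : H → ℤ} (hμ : IsSgn σ x y μ) (hH : 3 ≤ Fintype.card H) (z : ℕ)
    (lab lab' : H → Fin z) (h1 : lab (σ x) = lab y) (h2 : lab (σ y) = lab x)
    (h1' : lab' (σ x) = lab' y) (h2' : lab' (σ y) = lab' x)
    (h : ∀ h ∈ MM μ, lab h = lab' h ∧ lab (σ h) = lab' (σ h)) : lab = lab' := by
  classical
  -- the labels agree outside `σ x`, `σ y`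
  have hA : ∀ g, g ≠ x → g ≠ y → lab (σ g) = lab' (σ g) := by
    intro g hx hy
    rcases hμ.vals g with hg | hg
    · have h3 : μ (σ g) = -1 := by rw [hμ.alt g hx hy, hg]
      exact (h _ ((mem_MM μ _).2 h3)).1
    · exact (h _ ((mem_MM μ _).2 hg)).2
  have hA' : ∀ k, σ x ≠ k → σ y ≠ k → lab k = lab' k := by
    intro k hx hy
    have h3 := hA (σ.symm k) (fun h4 => hx (by rw [← h4, Equiv.apply_symm_apply]))
      (fun h4 => hy (by rw [← h4, Equiv.apply_symm_apply]))
    rwa [Equiv.apply_symm_apply] at h3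
  have hyx : σ y ≠ x := by
    intro h3
    apply hμ.diff
    have : σ.SameCycle y (σ y) := Equiv.Perm.sameCycle_apply_right.2 (Equiv.Perm.SameCycle.refl σ y)
    rw [h3] at this
    exact this.symm
  have hxy : σ x ≠ y := by
    intro h3
    apply hμ.diff
    have : σ.SameCycle x (σ x) := Equiv.Perm.sameCycle_apply_right.2 (Equiv.Perm.SameCycle.refl σ x)
    rw [h3] at this
    exact this
  have hnot : ¬ (σ x = x ∧ σ y = y) := by
    rintro ⟨h3, h4⟩
    have h5 : ∀ k : H, k = x ∨ k = y := by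
      intro k
      rcases hμ.cyc hσ k with h6 | h6
      · left
        obtain ⟨n, hn⟩ := h6
        rw [← hn]
        exact Equiv.Perm.zpow_apply_eq_self_of_apply_eq_self h3 n
      · right
        obtain ⟨n, hn⟩ := h6
        rw [← hn]
        exact Equiv.Perm.zpow_apply_eq_self_of_apply_eq_self h4 n
    have h7 : Fintype.card H ≤ ({x, y} : Finset H).card := by
      rw [← Finset.card_univ]
      refine Finset.card_le_card fun k _ => ?_
      rcases h5 k with h8 | h8
      · rw [h8]; simp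
      · rw [h8]; simp
    have := Finset.card_le_two (a := x) (b := y)
    omega
  have hkx : σ x ≠ x → lab x = lab' x := fun h3 => hA' x h3 hyx
  have hky : σ y ≠ y → lab y = lab' y := fun h3 => hA' y hxy h3
  have hx' : lab x = lab' x ∧ lab y = lab' y := by
    by_cases h3 : σ x = x
    · have h4 : σ y ≠ y := fun h4 => hnot ⟨h3, h4⟩
      have h5 := hky h4
      rw [h3] at h1 h1'
      exact ⟨by rw [h1, h1', h5], h5⟩
    · have h5 := hkx h3
      by_cases h4 : σ y = y
      · rw [h4] at h2 h2'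
        exact ⟨h5, by rw [h2, h2', h5]⟩
      · exact ⟨h5, hky h4⟩
  funext k
  by_cases h3 : σ x = k
  · rw [← h3, h1, h1', hx'.2]
  · by_cases h4 : σ y = k
    · rw [← h4, h2, h2', hx'.1]
    · exact hA' k h3 h4

/-- at most two vertices -/
theorem AAc_eq_zero {ρ : Type} [Fintype ρ] (K : ρ → ℕ) (hK : ∀ i, Odd (K i))
    (hρ : 3 ≤ Fintype.card ρ) : AAc K = 0 := by
  classical
  rw [AAc]
  refine Finset.sum_eq_zero fun R hR => ?_
  exfalso
  have hAA := (Finset.mem_filter.1 hR).2.2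
  obtain ⟨x, μ, hx⟩ := hAA
  have hs := isSgn_of_isAA R x μ hx
  have h1 : ∀ i : ρ, i = x.1 ∨ i = (R.τ x).1 := by
    intro i
    have hpos : 0 < K i := (hK i).pos
    rcases hs.cyc (allOdd_rot K hK) (⟨i, ⟨0, hpos⟩⟩ : HK K) with h2 | h2
    · left; exact ((sameCycle_rot K _ _).1 h2).symm
    · right; exact ((sameCycle_rot K _ _).1 h2).symm
  have h7 : Fintype.card ρ ≤ ({x.1, (R.τ x).1} : Finset ρ).card := by
    rw [← Finset.card_univ]
    refine Finset.card_le_card fun k _ => ?_
    rcases h1 k with h8 | h8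
    · rw [h8]; simp
    · rw [h8]; simp
  have := Finset.card_le_two (a := x.1) (b := (R.τ x).1)
  omega

end Pool.Agent.Helper72.MVAA
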