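import Pool.Agent.Helper72.MVAA.LOne
import Pool.Agent.Helper72.MVAA.LThree
import Pool.Agent.Helper72.MVAA.Str
import Pool.Agent.Helper72.MVAA.Num

/-!
Project MV, block AA: assembly.
-/

namespace Pool.Agent.Helper72.MVAA

open Finset Pool.Agent.Helper60.MV

/-- the weight of `F` faces -/
noncomputable def VV (F : ℕ) : ℝ := 7 ^ F * (F : ℝ) ^ (F / 2)

theorem two_ten (F : ℕ) : (2 : ℝ) ^ F * 10 ^ (F / 2) ≤ 7 ^ F := by
  obtain ⟨m, hm | hm⟩ := Nat.even_or_odd' F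
  · subst hm
    have h1 : 2 * m / 2 = m := by omega
    rw [h1, pow_mul, pow_mul, ← mul_pow]
    exact pow_le_pow_left₀ (by norm_num) (by norm_num) m
  · subst hm
    have h1 : (2 * m + 1) / 2 = m := by omega
    rw [h1, pow_succ, pow_succ, pow_mul, pow_mul]
    have h2 : ((2 : ℝ) ^ 2) ^ m * 10 ^ m ≤ (7 ^ 2) ^ m := by
      rw [← mul_pow]
      exact pow_le_pow_left₀ (by norm_num) (by norm_num) m
    have h3 : (0 : ℝ) ≤ (7 ^ 2) ^ m := by positivity
    nlinarith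

/-- sum over the pairings of the faces -/
theorem sum_beta_le {H : Type} [Fintype H] (g : Equiv.Perm H) :
    ∑ β ∈ PR (Cyc g), (10 : ℝ) ^ (nf β) ≤ VV (nf g) := by
  have h1 : ∀ β ∈ PR (Cyc g), (10 : ℝ) ^ (nf β) = 10 ^ (nf g / 2) := by
    intro β hβ
    have h2 := nf_pairing β ((mem_PR β).1 hβ)
    have h3 : nf β = nf g / 2 := by
      unfold nf at *
      omega
    rw [h3]
  rw [sum_congr rfl h1, sum_const, nsmul_eq_mul]
  have h4 : ((PR (Cyc g)).card : ℝ) ≤ 2 ^ (nf g) * (nf g : ℝ) ^ (nf g / 2) := by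
    have := card_PR_le (Cyc g)
    unfold nf
    exact_mod_cast this
  have h5 : ((PR (Cyc g)).card : ℝ) * 10 ^ (nf g / 2) ≤
      (2 ^ (nf g) * (nf g : ℝ) ^ (nf g / 2)) * 10 ^ (nf g / 2) :=
    mul_le_mul_of_nonneg_right h4 (by positivity)
  refine h5.trans ?_
  have h6 := two_ten (nf g)
  unfold VV
  have h7 : (0 : ℝ) ≤ (nf g : ℝ) ^ (nf g / 2) := by positivity
  nlinarith

/-- the sum over the configurations with `τ ∈ T` -/
theorem sum_conf_le {H : Type} [Fintype H] (σ : Equiv.Perm H) (E : ℕ)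
    (hE : Fintype.card H = 2 * E) (T : Finset (Equiv.Perm H)) (_hT : T ⊆ PR H)
    (S : Finset (Conf σ)) (hS : ∀ R ∈ S, R.τ ∈ T) :
    ∑ R ∈ S, R.crude ≤ (10 / 9) ^ E * ∑ τ ∈ T, VV (nf (σ * τ)) := by
  classical
  have h1 : ∀ R : Conf σ, R.crude = (10 / 9) ^ E * 10 ^ (nf R.β) := by
    intro R
    have h2 := nf_pairing R.τ R.hτ
    have h3 : Fintype.card R.Edge = E := by
      have h4 : nf R.τ = E := by omega
      exact h4
    unfold Conf.crude
    rw [h3, mul_comm]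
    rfl
  have h5 : ∑ R ∈ S, R.crude = (10 / 9) ^ E * ∑ R ∈ S, (10 : ℝ) ^ (nf R.β) := by
    rw [mul_sum]
    exact sum_congr rfl (fun R _ => h1 R)
  rw [h5]
  refine mul_le_mul_of_nonneg_left ?_ (by positivity)
  have h6 : ∑ τ ∈ T, ∑ β ∈ PR (Cyc (σ * τ)), (10 : ℝ) ^ (nf β) ≤ ∑ τ ∈ T, VV (nf (σ * τ)) :=
    sum_le_sum (fun τ _ => sum_beta_le (σ * τ))
  refine le_trans ?_ h6
  rw [sum_sigma']
  have h7 : ∑ R ∈ S, (10 : ℝ) ^ (nf R.β) =
      ∑ q ∈ S.image (fun R : Conf σ => (⟨R.τ, R.β⟩ : Σ τ : Equiv.Perm H, Equiv.Perm (Cyc (σ * τ)))),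
        (10 : ℝ) ^ (nf q.2) := by
    rw [sum_image]
    rintro ⟨τ, hτ, β, hβ⟩ _ ⟨τ', hτ', β', hβ'⟩ _ h
    simp only [Sigma.mk.injEq] at h
    obtain ⟨h1, h2⟩ := h
    subst h1
    simp only [heq_eq_eq] at h2
    subst h2
    rfl
  rw [h7]
  refine sum_le_sum_of_subset_of_nonneg ?_ (fun _ _ _ => by positivity)
  intro q hq
  rw [mem_image] at hq
  obtain ⟨R, hR, rfl⟩ := hq
  rw [mem_sigma]
  exact ⟨hS R hR, (mem_PR _).2 R.hβ⟩

/-- few faces -/
theorem small_le {H : Type} [Fintype H] {σ : Equiv.Perm H} (hσ : AllOdd σ) (E : ℕ)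
    (hE : Fintype.card H = 2 * E) {x y : H} {μ : H → ℤ} (hμ : IsSgn σ x y μ)
    (T : Finset (Equiv.Perm H)) (hT : T ⊆ TT (MM μ) x y)
    (hTs : ∀ τ ∈ T, 50 * nf (σ * τ) ≤ E) :
    ∑ τ ∈ T, VV (nf (σ * τ)) ≤ (((E / 50 : ℕ) : ℝ) + 1) * ((70000 : ℝ) ^ (E / 50)
      * (((E - 1).factorial : ℝ) * (10 / 9 : ℝ) ^ E)) := by
  classical
  haveI : Nonempty H := ⟨x⟩
  rcases Nat.lt_or_ge E 2 with hE2 | hE2
  · have h0 : T = ∅ := by
      by_contra hne
      obtain ⟨τ, hτ⟩ := nonempty_iff_ne_empty.2 hne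
      have h1 := hTs τ hτ
      have h2 := nf_pos (σ * τ)
      omega
    rw [h0, sum_empty]
    positivity
  have hcard := hμ.card E hE
  have hx : x ∉ MM μ := by
    rw [mem_MM, hμ.one]
    norm_num
  have hy : y ∉ MM μ := by
    rw [mem_MM, hμ.one']
    norm_num
  have key : ∀ F : ℕ, 1 ≤ F → 50 * F ≤ E →
      ∑ τ ∈ T.filter (fun τ => nf (σ * τ) = F), VV (nf (σ * τ)) ≤
        (70000 : ℝ) ^ (E / 50) * (((E - 1).factorial : ℝ) * (10 / 9 : ℝ) ^ E) := by
    intro F hF1 hF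
    set z := Nat.sqrt F + 1 with hz
    have hz1 : F ≤ z * z := by
      have := Nat.lt_succ_sqrt F
      simpa [hz] using this.le
    have hz2 : z * z ≤ 4 * F := by
      have h1 := Nat.sqrt_le F
      have h2 : Nat.sqrt F ≤ F := Nat.sqrt_le_self F
      rw [hz]
      nlinarith
    have hV : VV F ≤ 7 ^ F * (z : ℝ) ^ F := by
      unfold VV
      refine mul_le_mul_of_nonneg_left ?_ (by positivity)
      have h1 : (F : ℝ) ^ (F / 2) ≤ ((z : ℝ) * z) ^ (F / 2) := by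
        refine pow_le_pow_left₀ (by positivity) ?_ _
        exact_mod_cast hz1
      refine h1.trans ?_
      rw [← pow_two, ← pow_mul]
      refine pow_le_pow_right₀ ?_ (by omega)
      rw [hz]
      push_cast
      linarith [(Nat.cast_nonneg (Nat.sqrt F) : (0 : ℝ) ≤ _)]
    have h1 : ∑ τ ∈ T.filter (fun τ => nf (σ * τ) = F), VV (nf (σ * τ)) ≤
        ∑ τ ∈ TT (MM μ) x y, 7 ^ F * (z : ℝ) ^ (nf (σ * τ)) := by
      refine le_trans (sum_le_sum (g := fun τ => 7 ^ F * (z : ℝ) ^ (nf (σ * τ))) ?_) ?_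
      · intro τ hτ
        rw [mem_filter] at hτ
        rw [hτ.2]
        exact hV
      · refine sum_le_sum_of_subset_of_nonneg ?_ (fun _ _ _ => by positivity)
        exact (filter_subset _ _).trans hT
    refine h1.trans ?_
    rw [← mul_sum]
    have h2 := sum_one σ (MM μ) x y hx hy z
      (fun lab lab' a1 a2 a3 a4 a5 => hμ.det hσ (by omega) z lab lab' a1 a2 a3 a4 a5)
    have h3 : ∑ τ ∈ TT (MM μ) x y, (z : ℝ) ^ (nf (σ * τ)) ≤
        (((z * z).ascFactorial (MM μ).card : ℕ) : ℝ) := by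
      exact_mod_cast h2
    have h4 : (MM μ).card = E - 1 := by omega
    rw [h4] at h3
    have h5 := asc_le (z * z) (E - 1)
    have h6 : (10 : ℝ) ^ (z * z) ≤ 10 ^ (4 * F) := pow_le_pow_right₀ (by norm_num) hz2
    have h7 : (10 / 9 : ℝ) ^ (E - 1) ≤ (10 / 9) ^ E :=
      pow_le_pow_right₀ (by norm_num) (by omega)
    have h8 : ((E - 1).factorial : ℝ) * (10 / 9) ^ (E - 1) * 10 ^ (z * z) ≤
        ((E - 1).factorial : ℝ) * (10 / 9) ^ E * 10 ^ (4 * F) := by
      have h9 : ((E - 1).factorial : ℝ) * (10 / 9) ^ (E - 1) ≤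
          ((E - 1).factorial : ℝ) * (10 / 9) ^ E := mul_le_mul_of_nonneg_left h7 (by positivity)
      exact mul_le_mul h9 h6 (by positivity) (by positivity)
    have h10 : (7 : ℝ) ^ F * 10 ^ (4 * F) ≤ 70000 ^ (E / 50) := by
      rw [pow_mul, ← mul_pow]
      have : (7 : ℝ) * 10 ^ 4 = 70000 := by norm_num
      rw [this]
      exact pow_le_pow_right₀ (by norm_num) (by omega)
    calc (7 : ℝ) ^ F * ∑ τ ∈ TT (MM μ) x y, (z : ℝ) ^ (nf (σ * τ))
        ≤ 7 ^ F * (((E - 1).factorial : ℝ) * (10 / 9) ^ E * 10 ^ (4 * F)) :=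
          mul_le_mul_of_nonneg_left ((h3.trans h5).trans h8) (by positivity)
      _ = (7 ^ F * 10 ^ (4 * F)) * (((E - 1).factorial : ℝ) * (10 / 9) ^ E) := by ring
      _ ≤ 70000 ^ (E / 50) * (((E - 1).factorial : ℝ) * (10 / 9) ^ E) :=
          mul_le_mul_of_nonneg_right h10 (by positivity)
  have hmaps : ∀ τ ∈ T, nf (σ * τ) ∈ Icc 1 (E / 50) := by
    intro τ hτ
    rw [mem_Icc]
    have h1 := hTs τ hτ
    have h2 := nf_pos (σ * τ)
    omega
  rw [← sum_fiberwise_of_maps_to hmaps]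
  have h11 : ∑ F ∈ Icc 1 (E / 50), ∑ τ ∈ T.filter (fun τ => nf (σ * τ) = F), VV (nf (σ * τ)) ≤
      ∑ _F ∈ Icc 1 (E / 50),
        (70000 : ℝ) ^ (E / 50) * (((E - 1).factorial : ℝ) * (10 / 9 : ℝ) ^ E) := by
    refine sum_le_sum (fun F hF => ?_)
    rw [mem_Icc] at hF
    exact key F hF.1 (by omega)
  refine h11.trans ?_
  rw [sum_const, nsmul_eq_mul, Nat.card_Icc]
  refine mul_le_mul_of_nonneg_right ?_ (by positivity)
  have : E / 50 + 1 - 1 = E / 50 := by omega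
  rw [this]
  linarith

/-- many faces -/
theorem large_le {ρ : Type} [Fintype ρ] (K : ρ → ℕ) (hK : ∀ i, 0 < K i) (E : ℕ)
    (hE : ∑ i, K i = 2 * E) (hE1 : 1 ≤ E) (hρ : Fintype.card ρ = 2)
    (T : Finset (Equiv.Perm (HK K))) (hT : T ⊆ PR (HK K))
    (hTl : ∀ τ ∈ T, E < 50 * nf (rot K * τ)) :
    ∑ τ ∈ T, VV (nf (rot K * τ)) ≤ (98 : ℝ) ^ E * (E : ℝ) ^ (-(E : ℝ) / 100) *
      ((2 : ℝ) ^ (2 * E) * (E : ℝ) ^ 2 * (2 * E : ℝ) ^ E) := by
  classical
  have hcard : Fintype.card (HK K) = 2 * E := by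
    simp [HK, hE]
  have hE0 : (1 : ℝ) ≤ (E : ℝ) := by exact_mod_cast hE1
  have hEpos : (0 : ℝ) < (E : ℝ) := by linarith
  have h1 : ∀ τ ∈ T, VV (nf (rot K * τ)) ≤
      (98 : ℝ) ^ E * (E : ℝ) ^ (-(E : ℝ) / 100) * (E : ℝ) ^ (nf (rot K * τ)) := by
    intro τ hτ
    set F := nf (rot K * τ) with hF
    have hF1 : F ≤ 2 * E := by
      have := nf_le (rot K * τ)
      rw [hcard] at this
      exact this
    have hF2 : E < 50 * F := hTl τ hτ
    have hFpos : 1 ≤ F := by omega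
    unfold VV
    have h2 : (7 : ℝ) ^ F ≤ 49 ^ E := by
      have h3 : (49 : ℝ) ^ E = 7 ^ (2 * E) := by
        rw [pow_mul]
        norm_num
      rw [h3]
      exact pow_le_pow_right₀ (by norm_num) hF1
    have h4 : (F : ℝ) ^ (F / 2) ≤ 2 ^ E * ((E : ℝ) ^ F * (E : ℝ) ^ (-(E : ℝ) / 100)) := by
      have h5 : (F : ℝ) ^ (F / 2) ≤ (2 * E : ℝ) ^ (F / 2) := by
        refine pow_le_pow_left₀ (by positivity) ?_ _
        exact_mod_cast hF1
      refine h5.trans ?_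
      rw [mul_pow]
      have h6 : (2 : ℝ) ^ (F / 2) ≤ 2 ^ E := pow_le_pow_right₀ (by norm_num) (by omega)
      have h7 : (E : ℝ) ^ (F / 2) ≤ (E : ℝ) ^ F * (E : ℝ) ^ (-(E : ℝ) / 100) := by
        rw [← Real.rpow_natCast, ← Real.rpow_natCast, ← Real.rpow_add hEpos]
        refine Real.rpow_le_rpow_of_exponent_le hE0 ?_
        have h8 : ((F / 2 : ℕ) : ℝ) ≤ (F : ℝ) / 2 := Nat.cast_div_le
        have h9 : (E : ℝ) < 50 * F := by exact_mod_cast hF2
        linarith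
      exact mul_le_mul h6 h7 (by positivity) (by positivity)
    calc (7 : ℝ) ^ F * (F : ℝ) ^ (F / 2)
        ≤ 49 ^ E * (2 ^ E * ((E : ℝ) ^ F * (E : ℝ) ^ (-(E : ℝ) / 100))) :=
          mul_le_mul h2 h4 (by positivity) (by positivity)
      _ = (98 : ℝ) ^ E * (E : ℝ) ^ (-(E : ℝ) / 100) * (E : ℝ) ^ F := by
          have : (98 : ℝ) = 49 * 2 := by norm_num
          rw [this, mul_pow]
          ring
  refine (sum_le_sum h1).trans ?_
  rw [← mul_sum]
  refine mul_le_mul_of_nonneg_left ?_ (by positivity)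
  have h2 : ∑ τ ∈ T, (E : ℝ) ^ (nf (rot K * τ)) ≤ ∑ τ ∈ PR (HK K), (E : ℝ) ^ (nf (rot K * τ)) :=
    sum_le_sum_of_subset_of_nonneg hT (fun _ _ _ => by positivity)
  refine h2.trans ?_
  have h3 := sum_rot K hK E hE E
  rw [hρ] at h3
  have h4 : ∑ τ ∈ PR (HK K), (E : ℝ) ^ (nf (rot K * τ)) ≤
      2 ^ (2 * E) * (E : ℝ) ^ 2 * ((E.ascFactorial E : ℕ) : ℝ) := by
    exact_mod_cast h3
  refine h4.trans ?_
  refine mul_le_mul_of_nonneg_left ?_ (by positivity)
  have h5 : E.ascFactorial E ≤ (2 * E) ^ E := by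
    obtain ⟨e, rfl⟩ : ∃ e, E = e + 1 := ⟨E - 1, by omega⟩
    refine (Nat.ascFactorial_le_pow_add e (e + 1)).trans ?_
    exact Nat.pow_le_pow_left (by omega) _
  exact_mod_cast h5

/-- BLOCK AA, second theorem -/
theorem AAc_le : ∃ C : ℝ, 0 < C ∧ ∀ {ρ : Type} [Fintype ρ] (K : ρ → ℕ) (_ : ∀ i, Odd (K i))
    (E : ℕ) (_ : ∑ i, K i = 2 * E) (_ : 1 ≤ E), AAc K ≤ C * (19 / 10) ^ E * (E.factorial : ℝ) := by
  obtain ⟨C₁, hC₁, h₁⟩ := num_small
  obtain ⟨C₂, hC₂, h₂⟩ := num_large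
  refine ⟨C₁ + C₂, by positivity, ?_⟩
  intro ρ _ K hK E hE hE1
  classical
  rcases Nat.lt_or_ge 2 (Fintype.card ρ) with h3 | h3
  · rw [AAc_eq_zero K hK h3]
    positivity
  have hρ : Fintype.card ρ = 2 := by
    have h4 : Fintype.card ρ ≠ 0 := by
      intro h
      haveI := Fintype.card_eq_zero_iff.1 h
      rw [univ_eq_empty, sum_empty] at hE
      omega
    have h5 : Fintype.card ρ ≠ 1 := by
      intro h
      obtain ⟨i, hi⟩ := Fintype.card_eq_one_iff.1 h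
      have h6 : ∑ j, K j = K i := by
        rw [Fintype.sum_eq_single i]
        intro j hj
        exact absurd (hi j) hj
      have h7 := hK i
      rw [← h6, hE] at h7
      exact (Nat.not_odd_iff_even.2 (even_two_mul E)) h7
    omega
  have hcard : Fintype.card (HK K) = 2 * E := by
    simp [HK, hE]
  have hσ := allOdd_rot K hK
  have hKpos : ∀ i, 0 < K i := fun i => (hK i).pos
  set σ := rot K with hσdef
  -- the AA configurations
  set S : Finset (Conf σ) := univ.filter (fun R : Conf σ => R.Conn ∧ R.AA) with hS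
  have hAAc : AAc K = ∑ R ∈ S, R.crude := rfl
  set Ss := S.filter (fun R => 50 * nf (σ * R.τ) ≤ E) with hSs
  set Sl := S.filter (fun R => ¬ 50 * nf (σ * R.τ) ≤ E) with hSl
  have hsplit : ∑ R ∈ S, R.crude = ∑ R ∈ Ss, R.crude + ∑ R ∈ Sl, R.crude :=
    (sum_filter_add_sum_filter_not S _ _).symm
  have hlarge : ∑ R ∈ Sl, R.crude ≤ C₂ * (19 / 10) ^ E * (E.factorial : ℝ) := by
    refine le_trans ?_ (h₂ E hE1)
    refine (sum_conf_le σ E hcard ((PR (HK K)).filter (fun τ => ¬ 50 * nf (σ * τ) ≤ E))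
      (filter_subset _ _) Sl ?_).trans ?_
    · intro R hR
      rw [hSl, mem_filter] at hR
      rw [mem_filter]
      exact ⟨(mem_PR _).2 R.hτ, hR.2⟩
    · refine mul_le_mul_of_nonneg_left ?_ (by positivity)
      refine large_le K hKpos E hE hE1 hρ _ (filter_subset _ _) ?_
      intro τ hτ
      rw [mem_filter] at hτ
      exact not_le.1 hτ.2
  have hsmall : ∑ R ∈ Ss, R.crude ≤ C₁ * (19 / 10) ^ E * (E.factorial : ℝ) := by
    refine le_trans ?_ (h₁ E hE1)
    set B : ℝ := (((E / 50 : ℕ) : ℝ) + 1) * ((70000 : ℝ) ^ (E / 50)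
      * (((E - 1).factorial : ℝ) * (10 / 9 : ℝ) ^ E)) with hB
    have hB0 : 0 ≤ B := by positivity
    -- for every pair `(x, y)`
    have hxy : ∀ q : HK K × HK K, ∑ R ∈ Ss.filter (fun R => ∃ μ, R.IsAA q.1 μ ∧ R.τ q.1 = q.2),
        R.crude ≤ (10 / 9) ^ E * B := by
      rintro ⟨x, y⟩
      by_cases hne : (Ss.filter (fun R => ∃ μ, R.IsAA x μ ∧ R.τ x = y)).Nonempty
      · obtain ⟨R₀, hR₀⟩ := hne
        rw [mem_filter] at hR₀
        obtain ⟨μ₀, hμ₀, hy₀⟩ := hR₀.2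
        have hs₀ : IsSgn σ x y μ₀ := by
          have := isSgn_of_isAA R₀ x μ₀ hμ₀
          rwa [hy₀] at this
        refine (sum_conf_le σ E hcard
          ((TT (MM μ₀) x y).filter (fun τ => 50 * nf (σ * τ) ≤ E)) ?_ _ ?_).trans ?_
        · intro τ hτ
          rw [mem_filter, mem_TT] at hτ
          exact (mem_PR _).2 hτ.1.1
        · intro R hR
          rw [mem_filter] at hR
          obtain ⟨μ, hμ, hy⟩ := hR.2
          have hs : IsSgn σ x y μ := by
            have := isSgn_of_isAA R x μ hμ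
            rwa [hy] at this
          have hu : μ = μ₀ := hs.uniq hσ hs₀
          have hm := mem_TT_of_isAA R x μ hμ
          rw [hy, hu] at hm
          rw [mem_filter]
          have h5 := hR.1
          rw [hSs, mem_filter] at h5
          exact ⟨hm, h5.2⟩
        · refine mul_le_mul_of_nonneg_left ?_ (by positivity)
          refine small_le hσ E hcard hs₀ _ (filter_subset _ _) ?_
          intro τ hτ
          rw [mem_filter] at hτ
          exact hτ.2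
      · rw [not_nonempty_iff_eq_empty] at hne
        rw [hne, sum_empty]
        positivity
    have hcov : ∑ R ∈ Ss, R.crude ≤ ∑ q : HK K × HK K,
        ∑ R ∈ Ss.filter (fun R => ∃ μ, R.IsAA q.1 μ ∧ R.τ q.1 = q.2), R.crude := by
      have h5 : ∀ R ∈ Ss, R.crude ≤ ∑ q : HK K × HK K,
          (if (∃ μ, R.IsAA q.1 μ ∧ R.τ q.1 = q.2) then R.crude else 0) := by
        intro R hR
        rw [hSs, mem_filter, hS, mem_filter] at hR
        obtain ⟨x, μ, hμ⟩ := hR.1.2.2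
        have hcr : 0 ≤ R.crude := by
          unfold Conf.crude
          positivity
        have h6 : (if (∃ μ, R.IsAA (x, R.τ x).1 μ ∧ R.τ (x, R.τ x).1 = (x, R.τ x).2)
            then R.crude else 0) ≤ ∑ q : HK K × HK K,
          (if (∃ μ, R.IsAA q.1 μ ∧ R.τ q.1 = q.2) then R.crude else 0) :=
          single_le_sum (f := fun q : HK K × HK K =>
            (if (∃ μ, R.IsAA q.1 μ ∧ R.τ q.1 = q.2) then R.crude else 0))
            (fun q _ => by
              split_ifs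
              · exact hcr
              · exact le_refl _) (mem_univ (x, R.τ x))
        rw [if_pos ⟨μ, hμ, rfl⟩] at h6
        exact h6
      refine (sum_le_sum h5).trans ?_
      rw [sum_comm]
      refine sum_le_sum (fun q _ => ?_)
      exact le_of_eq (sum_filter _ _).symm
    refine hcov.trans ?_
    refine (sum_le_sum (fun q _ => hxy q)).trans ?_
    rw [sum_const, nsmul_eq_mul, card_univ, Fintype.card_prod, hcard]
    push_cast
    have : (2 * (E : ℝ)) * (2 * E) * ((10 / 9) ^ E * B) =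
      (10 / 9) ^ E * ((2 * E : ℝ) ^ 2 * B) := by ring
    rw [this, hB]
    refine le_of_eq ?_
    ring
  rw [hAAc, hsplit]
  have : (C₁ + C₂) * (19 / 10) ^ E * (E.factorial : ℝ) =
    C₁ * (19 / 10) ^ E * (E.factorial : ℝ) + C₂ * (19 / 10) ^ E * (E.factorial : ℝ) := by ring
  rw [this]
  linarith

end Pool.Agent.Helper72.MVAA
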