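import Pool.Agent.Helper72.MVAA.Defs

/-!
Project MV, block AA, module AA-1 (cards).

* `card_labs`: labellings by `Fin z` constant along `g` are the functions on the cycles
  (`Quotient.lift`); so there are `z ^ nf g` of them.
* `nf_pairing`: every cycle of a pairing has exactly two elements `{a, β a}`: the map
  `α → Cyc β`, `a ↦ cyc β a` has all fibres of size two (`SameCycle a b ↔ b = a ∨ b = β a`).
  Use `Finset.card_eq_sum_card_fiberwise` (or `Fintype.card_sigma`).
* `card_PR_le`: choose any injection `rk : α → ℕ` (or `α ≃ Fin n`). A pairing `β` is determined by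
  `O = {a | rk a < rk (β a)}` (which has `card α / 2` elements, as `β` maps `O` onto its complement)
  and by the restriction of `β` to `O` (a function `O → α`). Number of `O`: at most `2 ^ card α`,
  number of functions for given `O`: `(card α) ^ (card α / 2)`. If `card α` is odd there is no
  pairing.
* `nf_pos`, `nf_le`: obvious (`cyc g` is onto).
-/

namespace Pool.Agent.Helper72.MVAA

open Finset Pool.Agent.Helper60.MV

private theorem lab_const {H Z : Type} (g : Equiv.Perm H) (lab : H → Z)
    (hl : ∀ h, lab (g h) = lab h) {a b : H} (hab : g.SameCycle a b) : lab a = lab b := by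
  obtain ⟨i, rfl⟩ := hab
  have hinv : ∀ h, lab (g⁻¹ h) = lab h := by
    intro h
    rw [← hl (g⁻¹ h)]
    simp
  induction i using Int.induction_on with
  | zero => simp
  | succ i ih =>
    rw [add_comm, zpow_add, Equiv.Perm.mul_apply, zpow_one, hl]
    exact ih
  | pred i ih =>
    rw [sub_eq_add_neg, add_comm, zpow_add, Equiv.Perm.mul_apply, zpow_neg_one, hinv]
    exact ih

private def labEquiv {H Z : Type} (g : Equiv.Perm H) :
    {lab : H → Z // ∀ h, lab (g h) = lab h} ≃ (Cyc g → Z) where
  toFun lab := fun c => Quotient.lift lab.1 (fun _ _ hab => lab_const g lab.1 lab.2 hab) c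
  invFun F := ⟨fun h => F (cyc g h), fun h => by
    have : cyc g (g h) = cyc g h := by
      rw [sameCycle_iff]
      exact ⟨-1, by simp⟩
    change F (cyc g (g h)) = F (cyc g h)
    rw [this]⟩
  left_inv lab := by
    ext h
    rfl
  right_inv F := by
    funext c
    induction c using Quotient.inductionOn with
    | _ h => rfl

theorem card_labs {H : Type} [Fintype H] (g : Equiv.Perm H) (z : ℕ) :
    Nat.card {lab : H → Fin z // ∀ h, lab (g h) = lab h} = z ^ nf g := by
  classical
  rw [Nat.card_congr (labEquiv g), Nat.card_eq_fintype_card, Fintype.card_fun, Fintype.card_fin,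
    nf]

private theorem sameCycle_pair {A : Type} {g : Equiv.Perm A} (hg : IsPairing g) {x y : A}
    (h : g.SameCycle x y) : y = x ∨ y = g x := by
  obtain ⟨i, hi⟩ := h
  have h2 : g ^ (2 : ℤ) = 1 := by
    ext z
    rw [zpow_two, Equiv.Perm.mul_apply, hg.invol, Equiv.Perm.one_apply]
  rcases Int.even_or_odd' i with ⟨k, hk | hk⟩
  · left
    rw [← hi, hk, zpow_mul, h2, one_zpow, Equiv.Perm.one_apply]
  · right
    rw [← hi, hk, zpow_add, zpow_mul, h2, one_zpow, one_mul, zpow_one]

private theorem cyc_onto {A : Type} (g : Equiv.Perm A) : Function.Surjective (cyc g) := by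
  intro c
  exact ⟨c.rep, Quotient.out_eq c⟩

theorem nf_pairing {α : Type} [Fintype α] (β : Equiv.Perm α) (h : IsPairing β) :
    2 * nf β = Fintype.card α := by
  classical
  have h1 : (univ : Finset α).card = ∑ c : Cyc β, (univ.filter (fun a => cyc β a = c)).card :=
    Finset.card_eq_sum_card_fiberwise (fun a _ => Finset.mem_coe.2 (Finset.mem_univ _))
  have h2 : ∀ c : Cyc β, (univ.filter (fun a => cyc β a = c)).card = 2 := by
    intro c
    obtain ⟨a, rfl⟩ := cyc_onto β c
    have h3 : (univ.filter (fun b => cyc β b = cyc β a)) = {a, β a} := by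
      ext b
      simp only [mem_filter, mem_univ, true_and, mem_insert, mem_singleton]
      constructor
      · intro hb
        rw [eq_comm, sameCycle_iff] at hb
        exact sameCycle_pair h hb
      · rintro (hb | hb)
        · rw [hb]
        · rw [hb, sameCycle_iff]
          exact ⟨-1, by simp⟩
    rw [h3, Finset.card_pair (Ne.symm (h.fpf a))]
  rw [Finset.sum_congr rfl fun c _ => h2 c] at h1
  rw [Finset.card_univ] at h1
  rw [h1, nf, Finset.sum_const, Finset.card_univ, smul_eq_mul, mul_comm]

theorem card_PR_le (α : Type) [Fintype α] :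
    (PR α).card ≤ 2 ^ (Fintype.card α) * (Fintype.card α) ^ (Fintype.card α / 2) := by
  classical
  let rk : α → ℕ := fun a => (Fintype.equivFin α a : ℕ)
  have hrk : Function.Injective rk := fun a b hab =>
    (Fintype.equivFin α).injective (Fin.ext hab)
  let O : Equiv.Perm α → Finset α := fun β => univ.filter (fun a => rk a < rk (β a))
  have hO : ∀ β a, a ∈ O β ↔ rk a < rk (β a) := fun β a => by simp [O]
  have hflip : ∀ β, IsPairing β → ∀ a, a ∉ O β → β a ∈ O β := by
    intro β hβ a ha
    rw [hO] at ha ⊢
    rw [hβ.invol]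
    have : rk a ≠ rk (β a) := fun hh => hβ.fpf a (hrk hh).symm
    omega
  have hflip2 : ∀ β, IsPairing β → ∀ a, a ∈ O β → β a ∉ O β := by
    intro β hβ a ha hb
    rw [hO] at ha hb
    rw [hβ.invol] at hb
    omega
  have hcard : ∀ β, IsPairing β → (O β).card = Fintype.card α / 2 := by
    intro β hβ
    have h1 : (O β).card = (O β)ᶜ.card := by
      refine Finset.card_bij (fun a _ => β a) ?_ ?_ ?_
      · intro a ha
        rw [mem_compl]
        exact hflip2 β hβ a ha
      · intro a _ b _ hab
        exact β.injective hab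
      · intro b hb
        rw [mem_compl] at hb
        exact ⟨β b, hflip β hβ b hb, hβ.invol b⟩
    have h2 := Finset.card_add_card_compl (O β)
    omega
  have hfib : ∀ S ∈ (PR α).image O, ((PR α).filter (fun β => O β = S)).card ≤
      (Fintype.card α) ^ (Fintype.card α / 2) := by
    intro S hS
    obtain ⟨β0, hβ0, rfl⟩ := Finset.mem_image.1 hS
    rw [mem_PR] at hβ0
    have h1 : ((PR α).filter (fun β => O β = O β0)).card ≤
        Fintype.card ({a // a ∈ O β0} → α) := by
      rw [← Finset.card_univ]
      refine Finset.card_le_card_of_injOn (fun β => fun a : {a // a ∈ O β0} => β a.1)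
        (fun _ _ => Finset.mem_coe.2 (Finset.mem_univ _)) ?_
      intro β hβ β' hβ' heq
      rw [Finset.mem_coe, mem_filter, mem_PR] at hβ hβ'
      have hval : ∀ a ∈ O β0, β a = β' a := fun a ha => congrFun heq ⟨a, ha⟩
      ext a
      by_cases ha : a ∈ O β0
      · exact hval a ha
      · have hb : β a ∈ O β := hflip β hβ.1 a (by rw [hβ.2]; exact ha)
        rw [hβ.2] at hb
        have h2 := hval _ hb
        rw [hβ.1.invol] at h2
        calc β a = β' (β' (β a)) := (hβ'.1.invol _).symm
          _ = β' a := congrArg β' h2.symm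
    refine h1.trans ?_
    rw [Fintype.card_fun, Fintype.card_coe, hcard β0 hβ0]
  have h3 := Finset.card_le_mul_card_image (f := O) (PR α) _ hfib
  refine h3.trans ?_
  rw [mul_comm]
  refine Nat.mul_le_mul_right _ ?_
  refine (Finset.card_le_univ _).trans ?_
  rw [Fintype.card_finset]

theorem nf_le {H : Type} [Fintype H] (g : Equiv.Perm H) : nf g ≤ Fintype.card H := by
  exact Fintype.card_le_of_surjective _ (cyc_onto g)

theorem nf_pos {H : Type} [Fintype H] [Nonempty H] (g : Equiv.Perm H) : 0 < nf g := by
  obtain ⟨h⟩ := (inferInstance : Nonempty H)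
  haveI : Nonempty (Cyc g) := ⟨cyc g h⟩
  exact Fintype.card_pos

end Pool.Agent.Helper72.MVAA
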