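import Pool.Agent.Helper60.MV.DefsC

/-!
Project MV, block AA (helper72): definitions.
-/

namespace Pool.Agent.Helper72.MVAA

open Finset Pool.Agent.Helper60.MV

/-- number of cycles -/
noncomputable def nf {H : Type} [Fintype H] (g : Equiv.Perm H) : ℕ := Fintype.card (Cyc g)

/-- all pairings -/
noncomputable def PR (H : Type) [Fintype H] : Finset (Equiv.Perm H) := by
  classical
  exact univ.filter (fun τ => IsPairing τ)

/-- the pairings which pair `x` with `y` and the elements of `M` with elements outside `M`,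
and all elements outside `M` except `x`, `y` with elements of `M` -/
noncomputable def TT {H : Type} [Fintype H] (M : Finset H) (x y : H) :
    Finset (Equiv.Perm H) := by
  classical
  exact univ.filter (fun τ => IsPairing τ ∧ τ x = y ∧ (∀ h ∈ M, τ h ∉ M) ∧
    ∀ h, h ∉ M → h ≠ x → h ≠ y → τ h ∈ M)

theorem mem_PR {H : Type} [Fintype H] (τ : Equiv.Perm H) : τ ∈ PR H ↔ IsPairing τ := by
  classical
  simp [PR]

theorem mem_TT {H : Type} [Fintype H] (M : Finset H) (x y : H) (τ : Equiv.Perm H) :
    τ ∈ TT M x y ↔ IsPairing τ ∧ τ x = y ∧ (∀ h ∈ M, τ h ∉ M) ∧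
    ∀ h, h ∉ M → h ≠ x → h ≠ y → τ h ∈ M := by
  classical
  simp [TT]

theorem sameCycle_iff {H : Type} (g : Equiv.Perm H) (a b : H) :
    cyc g a = cyc g b ↔ g.SameCycle a b := by
  constructor
  · intro h
    exact Quotient.exact h
  · intro h
    exact Quotient.sound h

/-- the sign function of an AA configuration at the edge `{x, y}` -/
structure IsSgn {H : Type} (σ : Equiv.Perm H) (x y : H) (μ : H → ℤ) : Prop where
  vals : ∀ h, μ h = 1 ∨ μ h = -1
  one : μ x = 1
  one' : μ y = 1
  sx : μ (σ x) = 1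
  sy : μ (σ y) = 1
  alt : ∀ h, h ≠ x → h ≠ y → μ (σ h) = - μ h
  diff : ¬ σ.SameCycle x y

/-- the minus elements -/
noncomputable def MM {H : Type} [Fintype H] (μ : H → ℤ) : Finset H := by
  classical
  exact univ.filter (fun h => μ h = -1)

theorem mem_MM {H : Type} [Fintype H] (μ : H → ℤ) (h : H) : h ∈ MM μ ↔ μ h = -1 := by
  classical
  simp [MM]

end Pool.Agent.Helper72.MVAA
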