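import Pool.Agent.Helper72.MVAA.Defs

/-!
Project MV, block AA, module AA-2 (rising factorial).

`card_pairs`: the number of pairs (function `u : α → β`, permutation `π` of `α` preserving `u`) is
`z (z+1) ... (z+n-1)`, `z = card β`, `n = card α`.
PROOF. Induction on `n` (transport to `α = Fin n` or `Option α'`: both sides are invariant under
bijections). For a given `u` the number of `π` is `∏ b, (card {a // u a = b})!`
(Mathlib: `DomMulAct.stabilizer_card`, `DomMulAct.stabilizer_card'`; the stabiliser is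
`{g : Perm α // f ∘ g = f}`). So the number is `a n = ∑ u : α → β, ∏ b, (n_b u)!`; for
`α = Option α'` (or `Fin (n+1)`), a function is a pair `(u', j)`, and
`∏ b, (n_b u)! = (n_j u' + 1) * ∏ b, (n_b u')!`; as `∑ j, (n_j u' + 1) = n + z` we get
`a (n+1) = (z + n) * a n`. (Other proof: count `π` first with `u` constant on cycles.)

`asc_le`: `z (z+1) ... (z+n-1) ≤ n! (10/9)^n 10^z`: for `z = 0` clear; otherwise
`z.ascFactorial n = n! * choose (z + n - 1) n` (`Nat.ascFactorial_eq_factorial_mul_choose'`) and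
one term of the binomial theorem `1 = (9/10 + 1/10)^(z+n-1)` is
`choose (z+n-1) n (9/10)^n (1/10)^(z-1)`.
(Direct induction on `n` is also possible only for `9 z ≤ n + 10`, so use the binomial theorem.)
-/

namespace Pool.Agent.Helper72.MVAA

open Finset Pool.Agent.Helper60.MV

private theorem fib_sum {β : Type} [Fintype β] [DecidableEq β] (n : ℕ) :
    ∑ u : Fin n → β, ∏ b : β, (∑ i : Fin n, if u i = b then 1 else 0).factorial =
      (Fintype.card β).ascFactorial n := by
  induction n with
  | zero => simp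
  | succ n ih =>
    rw [Nat.ascFactorial_succ, ← ih]
    rw [← (Fin.consEquiv (fun _ : Fin (n + 1) => β)).sum_comp]
    rw [Fintype.sum_prod_type_right, Finset.mul_sum]
    refine Finset.sum_congr rfl (fun u _ => ?_)
    have h1 : ∀ j : β, ∏ b : β, (∑ i : Fin (n + 1),
        if (Fin.consEquiv (fun _ : Fin (n + 1) => β)) (j, u) i = b then 1 else 0).factorial =
        ((∑ i : Fin n, if u i = j then 1 else 0) + 1) *
          ∏ b : β, (∑ i : Fin n, if u i = b then 1 else 0).factorial := by
      intro j
      have h2 : ∀ b : β, (∑ i : Fin (n + 1),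
          if (Fin.consEquiv (fun _ : Fin (n + 1) => β)) (j, u) i = b then 1 else 0).factorial =
          (if j = b then (∑ i : Fin n, if u i = b then 1 else 0) + 1 else 1) *
            (∑ i : Fin n, if u i = b then 1 else 0).factorial := by
        intro b
        rw [Fin.sum_univ_succ]
        have h3 : (Fin.consEquiv (fun _ : Fin (n + 1) => β)) (j, u) 0 = j := rfl
        have h4 : ∀ i : Fin n, (Fin.consEquiv (fun _ : Fin (n + 1) => β)) (j, u) i.succ = u i :=
          fun i => rfl
        simp only [h3, h4]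
        split_ifs with h
        · rw [add_comm 1, Nat.factorial_succ]
        · rw [zero_add, one_mul]
      rw [Finset.prod_congr rfl (fun b _ => h2 b), Finset.prod_mul_distrib,
        Finset.prod_ite_eq]
      simp
    rw [Finset.sum_congr rfl (fun j _ => h1 j), ← Finset.sum_mul]
    congr 1
    rw [Finset.sum_add_distrib, Finset.sum_comm]
    simp [add_comm]

theorem card_pairs (α β : Type) [Fintype α] [Fintype β] :
    Nat.card {p : (α → β) × Equiv.Perm α // ∀ a, p.1 (p.2 a) = p.1 a} =
      (Fintype.card β).ascFactorial (Fintype.card α) := by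
  classical
  have e1 : {p : (α → β) × Equiv.Perm α // ∀ a, p.1 (p.2 a) = p.1 a} ≃
      Σ u : α → β, {g : Equiv.Perm α // u ∘ g = u} :=
    { toFun := fun p => ⟨p.1.1, p.1.2, funext p.2⟩
      invFun := fun s => ⟨(s.1, s.2.1), fun a => congrFun s.2.2 a⟩
      left_inv := fun p => rfl
      right_inv := fun s => rfl }
  rw [Nat.card_congr e1, Nat.card_eq_fintype_card, Fintype.card_sigma, ← fib_sum]
  let e := Fintype.equivFin α
  rw [← (e.arrowCongr (Equiv.refl β)).sum_comp]
  refine Finset.sum_congr rfl (fun u _ => ?_)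
  rw [DomMulAct.stabilizer_card]
  refine Finset.prod_congr rfl (fun b _ => ?_)
  congr 1
  rw [Fintype.card_subtype, Finset.card_filter, ← e.symm.sum_comp]
  rfl

theorem asc_le (z n : ℕ) :
    ((z.ascFactorial n : ℕ) : ℝ) ≤ (n.factorial : ℝ) * (10 / 9) ^ n * 10 ^ z := by
  rcases Nat.eq_zero_or_pos z with rfl | hz
  · rcases Nat.eq_zero_or_pos n with rfl | hn
    · simp
    · obtain ⟨m, rfl⟩ : ∃ m, n = m + 1 := ⟨n - 1, by omega⟩
      rw [Nat.zero_ascFactorial, Nat.cast_zero]
      positivity
  · obtain ⟨w, rfl⟩ : ∃ w, z = w + 1 := ⟨z - 1, by omega⟩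
    rw [Nat.ascFactorial_eq_factorial_mul_choose]
    push_cast
    have h1 : ((w + n).choose n : ℝ) * (9 / 10) ^ n * (1 / 10) ^ w ≤ 1 := by
      have h2 : ((9 / 10 : ℝ) + 1 / 10) ^ (w + n) = 1 := by norm_num
      rw [add_pow] at h2
      have h3 := Finset.single_le_sum (f := fun m => (9 / 10 : ℝ) ^ m * (1 / 10) ^ (w + n - m) *
        ((w + n).choose m : ℝ)) (s := Finset.range (w + n + 1)) (fun i _ => by positivity)
        (Finset.mem_range.2 (by omega : n < w + n + 1))
      simp only [Nat.add_sub_cancel] at h3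
      rw [h2] at h3
      linarith
    have h4 : ((w + n).choose n : ℝ) =
        ((w + n).choose n : ℝ) * (9 / 10) ^ n * (1 / 10) ^ w * ((10 / 9) ^ n * 10 ^ w) := by
      have h5 : ((9 / 10 : ℝ) ^ n * (10 / 9) ^ n) = 1 := by
        rw [← mul_pow]; norm_num
      have h6 : ((1 / 10 : ℝ) ^ w * 10 ^ w) = 1 := by
        rw [← mul_pow]; norm_num
      calc ((w + n).choose n : ℝ) = ((w + n).choose n : ℝ) * ((9 / 10 : ℝ) ^ n * (10 / 9) ^ n) *
          ((1 / 10 : ℝ) ^ w * 10 ^ w) := by rw [h5, h6]; ring
        _ = _ := by ring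
    have h7 : ((w + n).choose n : ℝ) ≤ (10 / 9) ^ n * 10 ^ w := by
      rw [h4]
      exact mul_le_of_le_one_left (by positivity) h1
    calc (n.factorial : ℝ) * ((w + n).choose n : ℝ)
        ≤ (n.factorial : ℝ) * ((10 / 9) ^ n * 10 ^ w) := by gcongr
      _ ≤ (n.factorial : ℝ) * (10 / 9) ^ n * 10 ^ (w + 1) := by
        rw [pow_succ]
        have : (0 : ℝ) ≤ (n.factorial : ℝ) * ((10 / 9) ^ n * 10 ^ w) := by positivity
        nlinarith

end Pool.Agent.Helper72.MVAA
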