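import Pool.Agent.Helper72.MVAA.Card
import Pool.Agent.Helper72.MVAA.Rising

/-!
Project MV, block AA, module AA-3 (first counting lemma, for few faces).

`sum_one`: for `T = TT M x y` and `hdet` (a labelling with `lab (σ x) = lab y`,
`lab (σ y) = lab x` is determined by the pairs `(lab h, lab (σ h))`, `h ∈ M`),
`∑_{τ ∈ T} z ^ nf (σ * τ) ≤ (z * z).ascFactorial (card M)`.

PROOF. By `card_labs` the left side is the number of pairs `(τ, lab)`, `τ ∈ T`, `lab : H → Fin z`,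
`lab (σ (τ h)) = lab h` for all `h`. For such a pair (put `h := τ g`): `lab (σ g) = lab (τ g)` (1).
Inject the set of pairs `(τ, lab)` into
`{p : (M → Fin z × Fin z) × Equiv.Perm M // ∀ a, p.1 (p.2 a) = p.1 a}` (counted by `card_pairs`).
For every `lab` which occurs choose one `τ₀ = τ₀(lab) ∈ T` with `lab ∘ (σ τ₀) = lab`
(`Classical.choose`). Send `(τ, lab)` to `(w, π)`, `w h = (lab h, lab (σ h))`,
`π h = τ₀ (τ h)`, `h ∈ M`.
* `π` maps `M` to `M`: `τ h ∉ M`, `τ h ≠ x` (else `h = τ x = y ∉ M`), `τ h ≠ y` (else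
  `h = τ y = x ∉ M`), so `τ₀ (τ h) ∈ M`. It is injective, hence a permutation of `M`
  (`Equiv.ofBijective`, `Finite.injective_iff_bijective`).
* `w (π h) = w h`: `lab (τ₀ τ h) = lab (σ τ h) = lab h` by (1) for `τ₀`, `g = τ h` and the
  invariance for `τ`; `lab (σ τ₀ τ h) = lab (τ h) = lab (σ h)` by the invariance for `τ₀` and (1)
  for `τ`.
* Injective: by (1) `lab (σ x) = lab (τ x) = lab y`, `lab (σ y) = lab (τ y) = lab x`, so `w`
  determines `lab` by `hdet`; then `τ₀` is determined, and `τ h = τ₀ (π h)` for `h ∈ M`; two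
  elements `τ, τ'` of `T` which agree on `M` are equal: they agree on `x`, `y`, and if
  `h ∉ M`, `h ≠ x`, `h ≠ y`, then `g = τ h ∈ M`, `τ' g = τ g = h`, so `τ' h = g`.
-/

namespace Pool.Agent.Helper72.MVAA

open Finset Pool.Agent.Helper60.MV

/-- elementary facts on the members of `TT` -/
theorem TT_swap {H : Type} [Fintype H] {M : Finset H} {x y : H} {τ : Equiv.Perm H}
    (h : τ ∈ TT M x y) : τ y = x := by
  obtain ⟨hp, hxy, _, _⟩ := (mem_TT M x y τ).mp h
  rw [← hxy, hp.invol]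

theorem TT_comp_mem {H : Type} [Fintype H] {M : Finset H} {x y : H} (hx : x ∉ M) (hy : y ∉ M)
    {τ τ0 : Equiv.Perm H} (h : τ ∈ TT M x y) (h0 : τ0 ∈ TT M x y) (g : H) :
    (τ0 * τ) g ∈ M ↔ g ∈ M := by
  have hyx := TT_swap h
  have hyx0 := TT_swap h0
  obtain ⟨hp, hxy, hM, hN⟩ := (mem_TT M x y τ).mp h
  obtain ⟨hp0, hxy0, hM0, hN0⟩ := (mem_TT M x y τ0).mp h0
  rw [Equiv.Perm.mul_apply]
  constructor
  · intro hg
    by_contra hgM
    by_cases h1 : g = x
    · rw [h1, hxy, hyx0] at hg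
      exact hx hg
    by_cases h2 : g = y
    · rw [h2, hyx, hxy0] at hg
      exact hy hg
    exact hM0 _ (hN g hgM h1 h2) hg
  · intro hg
    refine hN0 _ (hM g hg) ?_ ?_
    · intro h1
      have : g = y := by rw [← hxy, ← h1, hp.invol]
      rw [this] at hg
      exact hy hg
    · intro h1
      have : g = x := by rw [← hyx, ← h1, hp.invol]
      rw [this] at hg
      exact hx hg

theorem TT_ext {H : Type} [Fintype H] {M : Finset H} {x y : H}
    {τ τ' : Equiv.Perm H} (h : τ ∈ TT M x y) (h' : τ' ∈ TT M x y)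
    (hag : ∀ g ∈ M, τ g = τ' g) : τ = τ' := by
  have hyx := TT_swap h
  have hyx' := TT_swap h'
  obtain ⟨hp, hxy, hM, hN⟩ := (mem_TT M x y τ).mp h
  obtain ⟨hp', hxy', hM', hN'⟩ := (mem_TT M x y τ').mp h'
  ext g
  by_cases hg : g ∈ M
  · exact hag g hg
  by_cases h1 : g = x
  · rw [h1, hxy, hxy']
  by_cases h2 : g = y
  · rw [h2, hyx, hyx']
  have h3 := hag _ (hN g hg h1 h2)
  rw [hp.invol] at h3
  have h4 : τ' g = τ' (τ' (τ g)) := by rw [← h3]
  rw [hp'.invol] at h4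
  exact h4.symm

theorem sum_one {H : Type} [Fintype H] (σ : Equiv.Perm H) (M : Finset H) (x y : H)
    (hx : x ∉ M) (hy : y ∉ M) (z : ℕ)
    (hdet : ∀ lab lab' : H → Fin z, lab (σ x) = lab y → lab (σ y) = lab x →
      lab' (σ x) = lab' y → lab' (σ y) = lab' x →
      (∀ h ∈ M, lab h = lab' h ∧ lab (σ h) = lab' (σ h)) → lab = lab') :
    ∑ τ ∈ TT M x y, z ^ nf (σ * τ) ≤ (z * z).ascFactorial M.card := by
  classical
  have hS : ∑ τ ∈ TT M x y, z ^ nf (σ * τ) =
      Nat.card (Σ τ : {τ // τ ∈ TT M x y},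
        {lab : H → Fin z // ∀ h, lab ((σ * τ.1) h) = lab h}) := by
    rw [Nat.card_sigma, ← Finset.sum_coe_sort (TT M x y) (fun τ => z ^ nf (σ * τ))]
    refine Finset.sum_congr rfl (fun τ _ => ?_)
    rw [card_labs]
  have hT : (z * z).ascFactorial M.card =
      Nat.card {p : (M → Fin z × Fin z) × Equiv.Perm M // ∀ a, p.1 (p.2 a) = p.1 a} := by
    rw [card_pairs, Fintype.card_prod, Fintype.card_fin, Fintype.card_coe]
  rw [hS, hT]
  -- the chosen pairing
  let t0 : (H → Fin z) → Equiv.Perm H := fun lab =>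
    if h : ∃ τ0 ∈ TT M x y, ∀ h, lab ((σ * τ0) h) = lab h then Classical.choose h else 1
  have ht0 : ∀ lab : H → Fin z, (∃ τ0 ∈ TT M x y, ∀ h, lab ((σ * τ0) h) = lab h) →
      t0 lab ∈ TT M x y ∧ ∀ h, lab ((σ * t0 lab) h) = lab h := by
    intro lab h
    have h1 : t0 lab = Classical.choose h := by
      simp only [t0]
      rw [dif_pos h]
    rw [h1]
    exact Classical.choose_spec h
  have key : ∀ (τ : Equiv.Perm H) (lab : H → Fin z), τ ∈ TT M x y →
      (∀ h, lab ((σ * τ) h) = lab h) → ∀ g, lab (σ g) = lab (τ g) := by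
    intro τ lab hτ hlab g
    have hp := ((mem_TT M x y τ).mp hτ).1
    have := hlab (τ g)
    rw [Equiv.Perm.mul_apply, hp.invol] at this
    exact this
  let Φ : (Σ τ : {τ // τ ∈ TT M x y},
        {lab : H → Fin z // ∀ h, lab ((σ * τ.1) h) = lab h}) →
      {p : (M → Fin z × Fin z) × Equiv.Perm M // ∀ a, p.1 (p.2 a) = p.1 a} := fun q =>
    ⟨(fun h => (q.2.1 h, q.2.1 (σ h)),
      (t0 q.2.1 * q.1.1).subtypePerm (fun g => TT_comp_mem hx hy q.1.2
        (ht0 q.2.1 ⟨q.1.1, q.1.2, q.2.2⟩).1 g)), by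
      obtain ⟨⟨τ, hτ⟩, ⟨lab, hlab⟩⟩ := q
      intro a
      obtain ⟨hm, hi⟩ := ht0 lab ⟨τ, hτ, hlab⟩
      have k1 := key τ lab hτ hlab
      have k0 := key (t0 lab) lab hm hi
      simp only [Equiv.Perm.subtypePerm_apply, Equiv.Perm.mul_apply]
      refine Prod.ext ?_ ?_
      · change lab (t0 lab (τ a)) = lab a
        rw [← k0, ← Equiv.Perm.mul_apply, hlab]
      · change lab (σ (t0 lab (τ a))) = lab (σ a)
        rw [← Equiv.Perm.mul_apply, hi, k1]⟩
  refine Nat.card_le_card_of_injective Φ ?_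
  rintro ⟨⟨τ, hτ⟩, ⟨lab, hlab⟩⟩ ⟨⟨τ', hτ'⟩, ⟨lab', hlab'⟩⟩ heq
  have h1 : (fun h : M => (lab h, lab (σ h))) = fun h : M => (lab' h, lab' (σ h)) :=
    congrArg (fun p => p.1.1) heq
  have h2 : ∀ g : M, (t0 lab * τ) g = (t0 lab' * τ') g := by
    intro g
    have := congrArg (fun p => ((p.1.2 g : M) : H)) heq
    exact this
  have k1 := key τ lab hτ hlab
  have k1' := key τ' lab' hτ' hlab'
  have hlabeq : lab = lab' := by
    refine hdet lab lab' ?_ ?_ ?_ ?_ ?_
    · rw [k1, ((mem_TT M x y τ).mp hτ).2.1]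
    · rw [k1, TT_swap hτ]
    · rw [k1', ((mem_TT M x y τ').mp hτ').2.1]
    · rw [k1', TT_swap hτ']
    · intro h hh
      have := congrFun h1 ⟨h, hh⟩
      exact ⟨congrArg Prod.fst this, congrArg Prod.snd this⟩
  subst hlabeq
  have hτeq : τ = τ' := by
    refine TT_ext hτ hτ' (fun g hg => ?_)
    have := h2 ⟨g, hg⟩
    simp only [Equiv.Perm.mul_apply] at this
    exact (t0 lab).injective this
  subst hτeq
  rfl

end Pool.Agent.Helper72.MVAA
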