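import Pool.Agent.Helper72.MVAA.LTwoA

/-!
Project MV, block AA, module AA-5 (second counting lemma, for many faces).

`sum_two`: `H` linearly ordered, `card H = 2 E`, `I` a set such that `σ⁻¹ h < h` for `h ∉ I`:
`∑_{τ pairing} z ^ nf (σ * τ) ≤ 2 ^ (2 E) * z ^ card I * z.ascFactorial E`.

PROOF. By `card_labs` the left side is the number of pairs `(τ, lab)`, `τ` pairing,
`lab (σ (τ h)) = lab h`; so (1) `lab (σ g) = lab (τ g)` for all `g`. Put
`A = {g | g < τ g}` (opening half-edges), `C = Aᶜ = {h | τ h < h}`; `τ` maps `C` bijectively onto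
`A`, so `card A = E`. Put `u g = lab (σ g)`. For `h ∈ C`: `u (τ h) = lab (σ (τ h)) = lab h`.
`exists_code` (with `v = lab`) gives a permutation `π` of `A` preserving `u` (choose one).
CODE: `(τ, lab) ↦ (A, lab restricted to I, (u restricted to A, π))`, an element of
`Σ A : {A : Finset H // A.card = E}, (I → Fin z) × {p : (A → Fin z) × Perm A // p.1 (p.2 a) = p.1 a}`,
whose number of elements is at most `2 ^ (2 E) * z ^ card I * z.ascFactorial E` (`card_pairs`).
(For `exists_code` use labels `u, lab : H → Fin z` on all of `H`; in the code only the restriction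
of `u` to `A` is kept; note `rkS A u` on `A` depends only on `u` on `A`.)
THE CODE IS INJECTIVE: let `(τ, lab)`, `(τ', lab')` have the same code. Strong induction on `h`
(well-founded `<` on the finite linear order): (a) `lab h = lab' h`, (b) if `h ∈ C`, then
`τ h = τ' h`. (a): if `h ∈ I` clear. Otherwise `k = σ⁻¹ h < h`. If `k ∈ A`: `lab h = lab (σ k) =
u k = u' k = lab' h`. If `k ∈ C`: by (1) `lab h = lab (σ k) = lab (τ k)`, and `τ k = τ' k < k` by
(b) for `k`, so `lab (τ k) = lab' (τ k) = lab' (τ' k) = lab' h` by (a) for `τ k`.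
(b): `rkS C lab h = rkS C lab' h` by (a) for the smaller elements and `h`; the element `g ∈ A`
with `u g = lab h`, `rkS A u g = rkS C lab h` given by `exists_code` is therefore the same for
both (`rkS_inj`), and `τ h = π g = π' g = τ' h`.
Finally `τ = τ'`: on `C` by (b); on `A`: for `g ∈ A`, `h = τ g ∈ C`, `τ' h = τ h = g`, so
`τ' g = h`.
-/

namespace Pool.Agent.Helper72.MVAA

open Finset Pool.Agent.Helper60.MV

/-- the opening half-edges -/
private noncomputable def opn {H : Type} [Fintype H] [LinearOrder H] (τ : Equiv.Perm H) :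
    Finset H := univ.filter (fun g => g < τ g)

private theorem mem_opn {H : Type} [Fintype H] [LinearOrder H] (τ : Equiv.Perm H) (g : H) :
    g ∈ opn τ ↔ g < τ g := by
  simp [opn]

private theorem card_opn {H : Type} [Fintype H] [LinearOrder H] (τ : Equiv.Perm H)
    (hτ : IsPairing τ) (E : ℕ) (hE : Fintype.card H = 2 * E) : (opn τ).card = E := by
  have h1 : (opn τ).card = (opn τ)ᶜ.card := by
    refine Finset.card_bij (fun g _ => τ g) ?_ ?_ ?_
    · intro g hg
      rw [mem_opn] at hg
      rw [mem_compl, mem_opn, hτ.invol]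
      exact not_lt_of_gt hg
    · intro a _ b _ h
      exact τ.injective h
    · intro b hb
      rw [mem_compl, mem_opn, not_lt] at hb
      refine ⟨τ b, ?_, hτ.invol b⟩
      rw [mem_opn, hτ.invol]
      exact lt_of_le_of_ne hb (hτ.fpf b)
  have h2 : (opn τ).card + (opn τ)ᶜ.card = Fintype.card H := Finset.card_add_card_compl _
  omega

/-- the pairs with given set of opening half-edges -/
private def PA {H : Type} [Fintype H] [LinearOrder H] (σ : Equiv.Perm H) (z : ℕ)
    (A : Finset H) : Type :=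
  {q : Equiv.Perm H × (H → Fin z) // (IsPairing q.1 ∧ ∀ h, q.2 (σ (q.1 h)) = q.2 h) ∧
    opn q.1 = A}

private theorem exists_pi {H : Type} [Fintype H] [LinearOrder H] (σ : Equiv.Perm H) (z : ℕ)
    (A : Finset H) (q : PA σ z A) :
    ∃ π : Equiv.Perm {g // g ∈ A}, (∀ g, q.1.2 (σ (π g)) = q.1.2 (σ g)) ∧
      ∀ h, h ∉ A → ∃ g : {g // g ∈ A}, q.1.2 (σ g) = q.1.2 h ∧
        rkS A (fun g => q.1.2 (σ g)) g = rkS Aᶜ q.1.2 h ∧ (π g : H) = q.1.1 h := by
  obtain ⟨⟨τ, lab⟩, ⟨hτ, hlab⟩, hA⟩ := q
  have hmem : ∀ g, g ∈ A ↔ g < τ g := by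
    intro g
    rw [← hA]
    exact mem_opn τ g
  obtain ⟨π, h1, h2⟩ := exists_code A Aᶜ (fun g => lab (σ g)) lab τ
    (by
      intro h hh
      rw [mem_compl, hmem, not_lt] at hh
      rw [hmem, hτ.invol]
      exact lt_of_le_of_ne hh (hτ.fpf h))
    (fun h _ h' _ e => τ.injective e)
    (by
      intro g hg
      rw [hmem] at hg
      refine ⟨τ g, ?_, hτ.invol g⟩
      rw [mem_compl, hmem, hτ.invol]
      exact not_lt_of_gt hg)
    (fun h _ => hlab h)
  exact ⟨π, h1, fun h hh => h2 h (mem_compl.2 hh)⟩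

/-- the code -/
private noncomputable def code {H : Type} [Fintype H] [LinearOrder H] (σ : Equiv.Perm H) (z : ℕ)
    (I A : Finset H) (q : PA σ z A) : ({i // i ∈ I} → Fin z) ×
      {p : ({g // g ∈ A} → Fin z) × Equiv.Perm {g // g ∈ A} // ∀ a, p.1 (p.2 a) = p.1 a} :=
  (fun i => q.1.2 i, ⟨(fun a => q.1.2 (σ a), (exists_pi σ z A q).choose),
    (exists_pi σ z A q).choose_spec.1⟩)

private theorem code_inj {H : Type} [Fintype H] [LinearOrder H] (σ : Equiv.Perm H) (z : ℕ)
    (I A : Finset H) (hI : ∀ h, h ∉ I → σ.symm h < h) :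
    Function.Injective (code σ z I A) := by
  intro q q' hqq
  have e1 : ∀ i ∈ I, q.1.2 i = q'.1.2 i := by
    intro i hi
    have := congrFun (congrArg Prod.fst hqq) ⟨i, hi⟩
    exact this
  have e2' := congrArg (fun c => c.2.1) hqq
  have e2 : ∀ a ∈ A, q.1.2 (σ a) = q'.1.2 (σ a) := by
    intro a ha
    exact congrFun (congrArg Prod.fst e2') ⟨a, ha⟩
  have e3 : (exists_pi σ z A q).choose = (exists_pi σ z A q').choose :=
    congrArg Prod.snd e2'
  have s1 := (exists_pi σ z A q).choose_spec.2
  have s2 := (exists_pi σ z A q').choose_spec.2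
  rw [← e3] at s2
  set π := (exists_pi σ z A q).choose with hπ
  clear_value π
  clear e3 hπ e2' hqq
  obtain ⟨⟨τ, lab⟩, ⟨hτ, hlab⟩, hA⟩ := q
  obtain ⟨⟨τ', lab'⟩, ⟨hτ', hlab'⟩, hA'⟩ := q'
  simp only at *
  have hm : ∀ g, g ∈ A ↔ g < τ g := by
    intro g
    rw [← hA]
    exact mem_opn τ g
  have hm' : ∀ g, g ∈ A ↔ g < τ' g := by
    intro g
    rw [← hA']
    exact mem_opn τ' g
  have hls : ∀ k, lab (σ k) = lab (τ k) := by
    intro k
    have := hlab (τ k)
    rw [hτ.invol] at this
    exact this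
  have hls' : ∀ k, lab' (σ k) = lab' (τ' k) := by
    intro k
    have := hlab' (τ' k)
    rw [hτ'.invol] at this
    exact this
  have hrk : ∀ g, rkS A (fun g => lab (σ g)) g = rkS A (fun g => lab' (σ g)) g ∨ g ∉ A := by
    intro g
    by_cases hg : g ∈ A
    · left
      unfold rkS
      congr 1
      refine Finset.filter_congr fun g' hg' => ?_
      show g' < g ∧ lab (σ g') = lab (σ g) ↔ g' < g ∧ lab' (σ g') = lab' (σ g)
      rw [e2 g hg, e2 g' hg']
    · right
      exact hg
  have key : ∀ h, lab h = lab' h ∧ (h ∉ A → τ h = τ' h) := by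
    intro h
    induction h using WellFoundedLT.induction with
    | ind h ih =>
      have ha : lab h = lab' h := by
        by_cases hi : h ∈ I
        · exact e1 h hi
        · have hk := hI h hi
          have hσ : σ (σ.symm h) = h := σ.apply_symm_apply h
          set k := σ.symm h with hkdef
          by_cases hkA : k ∈ A
          · rw [← hσ]
            exact e2 k hkA
          · have h1 : τ k < k := by
              have h2 := hkA
              rw [hm, not_lt] at h2
              exact lt_of_le_of_ne h2 (hτ.fpf k)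
            have h3 := (ih k hk).2 hkA
            have h4 := (ih (τ k) (h1.trans hk)).1
            rw [← hσ, hls, hls', h4, h3]
      refine ⟨ha, fun hhA => ?_⟩
      obtain ⟨g, g1, g2, g3⟩ := s1 h hhA
      obtain ⟨g', g1', g2', g3'⟩ := s2 h hhA
      have hrC : rkS Aᶜ lab h = rkS Aᶜ lab' h := by
        unfold rkS
        congr 1
        refine Finset.filter_congr fun x _ => ?_
        constructor
        · rintro ⟨hx, hx2⟩
          exact ⟨hx, by rw [← (ih x hx).1, ← ha]; exact hx2⟩
        · rintro ⟨hx, hx2⟩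
          exact ⟨hx, by rw [(ih x hx).1, ha]; exact hx2⟩
      have hgg : (g : H) = g' := by
        refine rkS_inj A (fun g => lab (σ g)) g.2 g'.2 ?_ ?_
        · show lab (σ g) = lab (σ g')
          rw [g1, e2 g' g'.2, g1', ha]
        · rw [g2, hrC, ← g2']
          exact ((hrk g').resolve_right (fun hn => hn g'.2)).symm
      have hgg' : g = g' := Subtype.ext hgg
      rw [← g3, ← g3', hgg']
  have hlabeq : lab = lab' := funext fun h => (key h).1
  have hτeq : τ = τ' := by
    refine Equiv.ext fun h => ?_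
    by_cases hh : h ∈ A
    · have hk : τ h ∉ A := by
        have h1 := hh
        rw [hm] at h1
        rw [hm, hτ.invol]
        exact not_lt_of_gt h1
      have h2 := (key (τ h)).2 hk
      rw [hτ.invol] at h2
      rw [h2, hτ'.invol]
      rw [← h2]
    · exact (key h).2 hh
  subst hlabeq
  subst hτeq
  rfl

private instance {H : Type} [Fintype H] [LinearOrder H] (σ : Equiv.Perm H) (z : ℕ)
    (A : Finset H) : Finite (PA σ z A) := by
  unfold PA
  infer_instance

private theorem card_PA {H : Type} [Fintype H] [LinearOrder H] (σ : Equiv.Perm H) (z : ℕ)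
    (I A : Finset H) (hI : ∀ h, h ∉ I → σ.symm h < h) :
    Nat.card (PA σ z A) ≤ z ^ I.card * z.ascFactorial A.card := by
  refine (Nat.card_le_card_of_injective _ (code_inj σ z I A hI)).trans ?_
  rw [Nat.card_prod, card_pairs]
  simp

theorem sum_two {H : Type} [Fintype H] [LinearOrder H] (σ : Equiv.Perm H) (I : Finset H)
    (hI : ∀ h, h ∉ I → σ.symm h < h) (E : ℕ) (hE : Fintype.card H = 2 * E) (z : ℕ) :
    ∑ τ ∈ PR H, z ^ nf (σ * τ) ≤ 2 ^ (2 * E) * z ^ I.card * z.ascFactorial E := by
  classical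
  have h1 : ∑ τ ∈ PR H, z ^ nf (σ * τ)
      = ((PR H).sigma (fun τ => (univ : Finset (H → Fin z)).filter
          (fun lab => ∀ h, lab (σ (τ h)) = lab h))).card := by
    rw [Finset.card_sigma]
    refine Finset.sum_congr rfl fun τ _ => ?_
    rw [← card_labs, Nat.card_eq_fintype_card, Fintype.card_subtype]
    rfl
  rw [h1]
  have hmaps : ∀ p ∈ ((PR H).sigma (fun τ => (univ : Finset (H → Fin z)).filter
          (fun lab => ∀ h, lab (σ (τ h)) = lab h))),
      opn p.1 ∈ Finset.powersetCard E (univ : Finset H) := by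
    intro p hp
    rw [Finset.mem_sigma, mem_PR] at hp
    rw [Finset.mem_powersetCard]
    exact ⟨Finset.subset_univ _, card_opn p.1 hp.1 E hE⟩
  rw [Finset.card_eq_sum_card_fiberwise hmaps]
  have h2 : ∀ A ∈ Finset.powersetCard E (univ : Finset H),
      (((PR H).sigma (fun τ => (univ : Finset (H → Fin z)).filter
          (fun lab => ∀ h, lab (σ (τ h)) = lab h))).filter (fun p => opn p.1 = A)).card
        ≤ z ^ I.card * z.ascFactorial E := by
    intro A hA
    rw [Finset.mem_powersetCard] at hA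
    have h3 := card_PA σ z I A hI
    rw [hA.2] at h3
    refine le_trans ?_ h3
    set T := ((PR H).sigma (fun τ => (univ : Finset (H → Fin z)).filter
          (fun lab => ∀ h, lab (σ (τ h)) = lab h))).filter (fun p => opn p.1 = A) with hT
    have hTm : ∀ p ∈ T, (IsPairing p.1 ∧ ∀ h, p.2 (σ (p.1 h)) = p.2 h) ∧ opn p.1 = A := by
      intro p hp
      rw [hT, Finset.mem_filter, Finset.mem_sigma, mem_PR, Finset.mem_filter] at hp
      exact ⟨⟨hp.1.1, hp.1.2.2⟩, hp.2⟩
    have hcard : T.card = Nat.card {p // p ∈ T} := by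
      rw [Nat.card_eq_fintype_card, Fintype.card_coe]
    rw [hcard]
    let f : {p // p ∈ T} → PA σ z A := fun p => ⟨(p.1.1, p.1.2), hTm p.1 p.2⟩
    refine Nat.card_le_card_of_injective f ?_
    rintro ⟨⟨τ, lab⟩, hp⟩ ⟨⟨τ', lab'⟩, hp'⟩ hpp
    have h4 : ((τ, lab) : Equiv.Perm H × (H → Fin z)) = (τ', lab') := congrArg Subtype.val hpp
    rw [Prod.mk.injEq] at h4
    obtain ⟨h5, h6⟩ := h4
    subst h5
    subst h6
    rfl
  refine (Finset.sum_le_card_nsmul _ _ _ h2).trans ?_
  rw [Finset.card_powersetCard, Finset.card_univ, hE, smul_eq_mul, mul_assoc]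
  exact Nat.mul_le_mul_right _ (Nat.choose_le_two_pow _ _)

end Pool.Agent.Helper72.MVAA
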