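import Pool.Agent.Helper72.MVAA.Card
import Pool.Agent.Helper72.MVAA.Rising

/-!
Project MV, block AA, module AA-4 (second counting lemma, first half: the code permutation).

`A`, `C` finite sets of a linear order, `u` on `A`, `v` on `C` labels, `τ : C → A` a bijection with
`u (τ h) = v h`. `rkA g` = number of `g' ∈ A`, `g' < g` with the same label, `rkC` similarly.
Then there is a permutation `π` of `A` preserving `u` such that `π g = τ h` whenever `g ∈ A`,
`h ∈ C` have the same label and the same rank; and every `h ∈ C` has such a `g`.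

PROOF. For each label `i` the sets `A_i = {g ∈ A | u g = i}` and `C_i = {h ∈ C | v h = i}` have the
same number of elements (`τ` maps `C_i` onto `A_i`). In a finite set of a linear order the rank
map is a bijection onto `range card` (strictly monotone, values `< card`); so for every `g ∈ A`
there is exactly one `h = m g ∈ C` with `v h = u g`, `rkC h = rkA g`, and conversely. Put
`π g = τ (m g)`: injective (if `τ (m g) = τ (m g')` then `m g = m g'`, so the labels and ranks of
`g, g'` agree, so `g = g'`), hence a permutation of the finite set `A`;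
`u (π g) = v (m g) = u g`.
-/

namespace Pool.Agent.Helper72.MVAA

open Finset Pool.Agent.Helper60.MV

/-- rank inside the set `A` among the elements with the same label -/
noncomputable def rkS {H L : Type} [LinearOrder H] [DecidableEq L] (A : Finset H) (u : H → L)
    (g : H) : ℕ := (A.filter (fun g' => g' < g ∧ u g' = u g)).card

/-- an element is determined by its label and rank -/
theorem rkS_inj {H L : Type} [LinearOrder H] [DecidableEq L] (A : Finset H) (u : H → L)
    {g g' : H} (hg : g ∈ A) (hg' : g' ∈ A) (hu : u g = u g') (hr : rkS A u g = rkS A u g') :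
    g = g' := by
  have key : ∀ {a b : H}, a ∈ A → u a = u b → a < b → rkS A u a < rkS A u b := by
    intro a b ha hab hlt
    unfold rkS
    apply Finset.card_lt_card
    rw [Finset.ssubset_iff_of_subset]
    · refine ⟨a, ?_, ?_⟩
      · simp only [Finset.mem_filter]
        exact ⟨ha, hlt, hab⟩
      · simp only [Finset.mem_filter, not_and]
        intro _ h
        exact absurd h (lt_irrefl a)
    · intro c hc
      simp only [Finset.mem_filter] at hc ⊢
      exact ⟨hc.1, lt_trans hc.2.1 hlt, hc.2.2.trans hab⟩
  rcases lt_trichotomy g g' with h | h | h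
  · exact absurd hr (ne_of_lt (key hg hu h))
  · exact h
  · exact absurd hr.symm (ne_of_lt (key hg' hu.symm h))

private theorem ltwoA_image {H L : Type} [LinearOrder H] [DecidableEq L] (A : Finset H)
    (u : H → L) (i : L) :
    (A.filter (fun g => u g = i)).image (rkS A u) =
      Finset.range (A.filter (fun g => u g = i)).card := by
  apply Finset.eq_of_subset_of_card_le
  · intro n hn
    rw [Finset.mem_image] at hn
    obtain ⟨g, hg, rfl⟩ := hn
    rw [Finset.mem_filter] at hg
    rw [Finset.mem_range]
    unfold rkS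
    apply Finset.card_lt_card
    rw [Finset.ssubset_iff_of_subset]
    · refine ⟨g, ?_, ?_⟩
      · simp only [Finset.mem_filter]
        exact hg
      · simp only [Finset.mem_filter, not_and]
        intro _ h
        exact absurd h (lt_irrefl g)
    · intro c hc
      simp only [Finset.mem_filter] at hc ⊢
      exact ⟨hc.1, hc.2.2.trans hg.2⟩
  · rw [Finset.card_range, Finset.card_image_of_injOn]
    intro a ha b hb hab
    rw [Finset.mem_coe, Finset.mem_filter] at ha hb
    exact rkS_inj A u ha.1 hb.1 (ha.2.trans hb.2.symm) hab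

private theorem ltwoA_exists {H L : Type} [LinearOrder H] [DecidableEq L] (A C : Finset H)
    (u v : H → L) (g : H) (hg : g ∈ A)
    (hc : (A.filter (fun a => u a = u g)).card = (C.filter (fun a => v a = u g)).card) :
    ∃ h ∈ C, v h = u g ∧ rkS C v h = rkS A u g := by
  have h1 : rkS A u g ∈ (A.filter (fun a => u a = u g)).image (rkS A u) := by
    rw [Finset.mem_image]
    exact ⟨g, by rw [Finset.mem_filter]; exact ⟨hg, rfl⟩, rfl⟩
  rw [ltwoA_image, hc, ← ltwoA_image, Finset.mem_image] at h1
  obtain ⟨h, hh, hr⟩ := h1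
  rw [Finset.mem_filter] at hh
  exact ⟨h, hh.1, hh.2, hr⟩

theorem exists_code {H L : Type} [LinearOrder H] [DecidableEq L] (A C : Finset H) (u v : H → L)
    (τ : H → H) (hτ : ∀ h ∈ C, τ h ∈ A) (hinj : ∀ h ∈ C, ∀ h' ∈ C, τ h = τ h' → h = h')
    (hsurj : ∀ g ∈ A, ∃ h ∈ C, τ h = g) (huv : ∀ h ∈ C, u (τ h) = v h) :
    ∃ π : Equiv.Perm {g // g ∈ A}, (∀ g, u (π g) = u g) ∧
      ∀ h ∈ C, ∃ g : {g // g ∈ A}, u g = v h ∧ rkS A u g = rkS C v h ∧ (π g : H) = τ h := by
  have hcard : ∀ i : L, (C.filter (fun a => v a = i)).card =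
      (A.filter (fun a => u a = i)).card := by
    intro i
    refine Finset.card_bij (fun a _ => τ a) ?_ ?_ ?_
    · intro a ha
      rw [Finset.mem_filter] at ha ⊢
      exact ⟨hτ a ha.1, (huv a ha.1).trans ha.2⟩
    · intro a ha b hb hab
      rw [Finset.mem_filter] at ha hb
      exact hinj a ha.1 b hb.1 hab
    · intro b hb
      rw [Finset.mem_filter] at hb
      obtain ⟨a, ha, hab⟩ := hsurj b hb.1
      refine ⟨a, ?_, hab⟩
      rw [Finset.mem_filter]
      refine ⟨ha, ?_⟩
      rw [← huv a ha, hab]
      exact hb.2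
  have hm : ∀ g : {g // g ∈ A}, ∃ h ∈ C, v h = u g ∧ rkS C v h = rkS A u g := fun g =>
    ltwoA_exists A C u v g g.2 (hcard _).symm
  choose m hmC hmv hmr using hm
  have hinj' : Function.Injective
      (fun g : {g // g ∈ A} => (⟨τ (m g), hτ _ (hmC g)⟩ : {g // g ∈ A})) := by
    intro a b hab
    have h1 : τ (m a) = τ (m b) := congrArg Subtype.val hab
    have h2 : m a = m b := hinj _ (hmC a) _ (hmC b) h1
    apply Subtype.ext
    apply rkS_inj A u a.2 b.2
    · rw [← hmv a, ← hmv b, h2]
    · rw [← hmr a, ← hmr b, h2]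
  have hbij : Function.Bijective
      (fun g : {g // g ∈ A} => (⟨τ (m g), hτ _ (hmC g)⟩ : {g // g ∈ A})) :=
    Finite.injective_iff_bijective.mp hinj'
  refine ⟨Equiv.ofBijective _ hbij, ?_, ?_⟩
  · intro g
    rw [Equiv.ofBijective_apply]
    show u (τ (m g)) = u g
    rw [huv _ (hmC g), hmv g]
  · intro h hh
    obtain ⟨g, hg, h1, h2⟩ := ltwoA_exists C A v u h hh (hcard _)
    refine ⟨⟨g, hg⟩, h1, h2, ?_⟩
    rw [Equiv.ofBijective_apply]
    show τ (m ⟨g, hg⟩) = τ h
    have h3 : m ⟨g, hg⟩ = h := by
      apply rkS_inj C v (hmC _) hh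
      · rw [hmv]
        exact h1
      · rw [hmr]
        exact h2
    rw [h3]

end Pool.Agent.Helper72.MVAA
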